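import Pool.Agent.LH.In
import Pool.Agent.LG.Wd

/-!
# LH Ch: the choice of the forms

* `dd_mem_of_alg`: if `K` is algebraic over `ℂ(T)` then `Ω` is spanned by the `dd t`, `t ∈ T` (characteristic `0`; the minimal polynomial); more precisely for one element.
* `exists_J`: a basis of the span of the `δ i`, taken from the `δ i` (`exists_linearIndependent'` or similar); it has at most `w = dim Ω` elements.
* `exists_I`: `alg_all`: `Ω` is spanned by the `dd (X a)` and the `dlog (F i / F i₀)`, `i ∈ I'`; `dd (X a)` is in the span of the `δ (J t)` (`Base.span`, `Bas.span`).  The `p` linearly independent `δ (J t)` can be completed by `f` of the `dlog (F i / F i₀)` to a basis of `Ω` (dimension `p + f`); the exterior product of a basis is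
  not `0` (`basis.det`, `H23.fc`).
* `eq_smul`: top forms are proportional.
-/

set_option autoImplicit false

open MvPolynomial
open Pool.Agent.H23 (RatForm PrimeDivisorOver)
open Pool.Agent.LG (dd wd IV FV)

noncomputable section

namespace Pool.Agent.LH

variable {K : Type} [Field K] [Algebra ℂ K] {ι σ : Type} {k n m q p f d w : ℕ}

private theorem der_adjoin {M : Type} [AddCommGroup M] [Module K M] [Module ℂ M]
    [IsScalarTower ℂ K M] (D : Derivation ℂ K M) {T : Set K} (hT : ∀ t ∈ T, D t = 0) {x : K}
    (hx : x ∈ IntermediateField.adjoin ℂ T) : D x = 0 := by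
  induction hx using IntermediateField.adjoin_induction with
  | mem x hx => exact hT x hx
  | algebraMap c => exact D.map_algebraMap c
  | add x y _ _ hx hy => rw [map_add, hx, hy, add_zero]
  | inv x _ hx => rw [Derivation.leibniz_inv, hx, smul_zero]
  | mul x y _ _ hx hy => rw [Derivation.leibniz, hx, hy, smul_zero, smul_zero, add_zero]

private theorem der_poly {M : Type} [AddCommGroup M] [Module K M] [Module ℂ M]
    [IsScalarTower ℂ K M] (D : Derivation ℂ K M) {T : Set K} (hT : ∀ t ∈ T, D t = 0) (x : K)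
    (P : Polynomial (IntermediateField.adjoin ℂ T)) :
    D (Polynomial.aeval x P) = Polynomial.aeval x (Polynomial.derivative P) • D x := by
  induction P using Polynomial.induction_on' with
  | add P Q hP hQ => rw [map_add, map_add, hP, hQ, map_add, map_add, add_smul]
  | monomial n a =>
    rw [Polynomial.aeval_monomial, Polynomial.derivative_monomial, Polynomial.aeval_monomial,
      Derivation.leibniz, Derivation.leibniz_pow]
    have h1 : D (algebraMap (IntermediateField.adjoin ℂ T) K a) = 0 := der_adjoin D hT a.2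
    rw [h1, smul_zero, add_zero, map_mul, map_natCast, ← Nat.cast_smul_eq_nsmul K, smul_smul,
      smul_smul]

theorem dd_mem_of_alg (T : Set K) {x : K} (hx : IsAlgebraic (IntermediateField.adjoin ℂ T) x) : dd x ∈ Submodule.span K ((fun t => dd t) '' T) := by
  set N := Submodule.span K ((fun t => dd t) '' T) with hN
  let D : Derivation ℂ K (Ω[K⁄ℂ] ⧸ N) := N.mkQ.compDer (KaehlerDifferential.D ℂ K)
  have hD : ∀ y, D y = N.mkQ (dd y) := fun _ => rfl
  have hT : ∀ t ∈ T, D t = 0 := by
    intro t ht
    rw [hD, Submodule.mkQ_apply, Submodule.Quotient.mk_eq_zero]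
    exact Submodule.subset_span ⟨t, ht, rfl⟩
  have hint : IsIntegral (IntermediateField.adjoin ℂ T) x := hx.isIntegral
  have h1 := der_poly D hT x (minpoly (IntermediateField.adjoin ℂ T) x)
  rw [minpoly.aeval, map_zero] at h1
  have h2 : Polynomial.aeval x (Polynomial.derivative (minpoly (IntermediateField.adjoin ℂ T) x)) ≠ 0 :=
    (minpoly.irreducible hint).separable.aeval_derivative_ne_zero (minpoly.aeval _ _)
  have h3 : D x = 0 := (smul_eq_zero.1 h1.symm).resolve_left h2
  rw [hD, Submodule.mkQ_apply, Submodule.Quotient.mk_eq_zero] at h3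
  exact h3

private theorem finrank_kaehler {z : Fin w → K} (hz : IsTranscendenceBasis ℂ z) :
    Module.finrank K Ω[K⁄ℂ] = w ∧ Module.Finite K Ω[K⁄ℂ] := by
  obtain ⟨b, -⟩ := Pool.Agent.H23.exists_basis_kaehler hz
  exact ⟨by rw [Module.finrank_eq_card_basis b, Fintype.card_fin], Module.Finite.of_basis b⟩

omit [Algebra ℂ K] in
/-- a linearly independent subfamily with the same span -/
private theorem exists_sub {M N : Type} [AddCommGroup M] [Module K M] [Module.Finite K M] [Finite N] (v : N → M) :
    ∃ (r : ℕ) (J : Fin r → N), r ≤ Module.finrank K M ∧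
      LinearIndependent K (fun t => v (J t)) ∧
      Submodule.span K (Set.range fun t => v (J t)) = Submodule.span K (Set.range v) := by
  obtain ⟨κ, a, ha, hsp, hli⟩ := exists_linearIndependent' K v
  have : Finite κ := Finite.of_injective a ha
  have : Fintype κ := Fintype.ofFinite κ
  let e : Fin (Fintype.card κ) ≃ κ := (Fintype.equivFin κ).symm
  refine ⟨Fintype.card κ, fun t => a (e t), hli.fintype_card_le_finrank, hli.comp e e.injective, ?_⟩
  rw [← hsp]
  congr 1
  ext y
  constructor
  · rintro ⟨t, rfl⟩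
    exact ⟨e t, rfl⟩
  · rintro ⟨t, rfl⟩
    exact ⟨e.symm t, by simp⟩

theorem exists_J [Algebra.EssFiniteType ℂ K] {z : Fin w → K} (hz : IsTranscendenceBasis ℂ z) (S : Dat K ι σ n m q) : ∃ (p f : ℕ) (J : Fin p → Fin n), p + f = w ∧ S.Bas J := by
  obtain ⟨h1, h2⟩ := finrank_kaehler hz
  obtain ⟨r, J, h3, h4, h5⟩ := exists_sub (K := K) S.δ
  refine ⟨r, w - r, J, by omega, h4, fun i => ?_⟩
  rw [h5]
  exact Submodule.subset_span ⟨i, rfl⟩

theorem eq_smul [Algebra.EssFiniteType ℂ K] {z : Fin k → K} (hz : IsTranscendenceBasis ℂ z) {ω : RatForm K k} (hω : ω ≠ 0) (η : RatForm K k) : ∃ c : K, η = c • ω := by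
  obtain ⟨b, -⟩ := Pool.Agent.H23.exists_basis_kaehler hz
  have h1 := Pool.Agent.H23.eq_fc_smul b ω
  have h2 := Pool.Agent.H23.eq_fc_smul b η
  have h3 : Pool.Agent.H23.fc b ω ≠ 0 := by
    intro h
    rw [h, zero_smul] at h1
    exact hω h1
  refine ⟨Pool.Agent.H23.fc b η * (Pool.Agent.H23.fc b ω)⁻¹, ?_⟩
  calc η = Pool.Agent.H23.fc b η • exteriorPower.ιMulti K k (fun i => b i) := h2
    _ = (Pool.Agent.H23.fc b η * (Pool.Agent.H23.fc b ω)⁻¹) •
        (Pool.Agent.H23.fc b ω • exteriorPower.ιMulti K k (fun i => b i)) := by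
      rw [smul_smul, inv_mul_cancel_right₀ h3]
    _ = (Pool.Agent.H23.fc b η * (Pool.Agent.H23.fc b ω)⁻¹) • ω := by rw [← h1]

private theorem smul_dlog {a : K} (ha : a ≠ 0) : a • dlog a = dd a := by
  unfold dlog
  rw [smul_smul, mul_inv_cancel₀ ha, one_smul]

theorem exists_I [Algebra.EssFiniteType ℂ K] {z : Fin (p + f) → K} (hz : IsTranscendenceBasis ℂ z) (S : Dat K ι σ n m q) (hd : 1 ≤ d) (hS : S.Base d) {J : Fin p → Fin n} (hJ : S.Bas J) {I' : Finset (Fin q)} (hI : I'.card = m + 1) :
    ∃ (i₀ : Fin q) (I : Fin f → Fin q), i₀ ∈ I' ∧ (∀ t, I t ∈ I') ∧ S.W J i₀ I ≠ 0 := by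
  obtain ⟨hfr, hfin⟩ := finrank_kaehler hz
  obtain ⟨i₀, hi₀⟩ : I'.Nonempty := Finset.card_pos.1 (by omega)
  set U : Submodule K Ω[K⁄ℂ] := Submodule.span K (Set.range fun t => S.δ (J t)) with hU
  -- the differentials are spanned by `U` and the logarithmic differentials
  have hδ : Submodule.span K (Set.range S.δ) ≤ U := by
    rw [Submodule.span_le]
    rintro _ ⟨i, rfl⟩
    exact hJ.span i
  have halg := alg_all S hd hS hI hi₀
  let v : {i // i ∈ I'} → Ω[K⁄ℂ] ⧸ U := fun i => U.mkQ (dlog (S.F i / S.F i₀))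
  have hv : Submodule.span K (Set.range v) = ⊤ := by
    have h1 : ∀ x : K, U.mkQ (dd x) ∈ Submodule.span K (Set.range v) := by
      intro x
      have h2 := dd_mem_of_alg _ (halg.isAlgebraic x)
      have h3 : Submodule.span K ((fun t => dd t) '' (Set.range S.X ∪ {y | ∃ i ∈ I', y = S.F i / S.F i₀})) ≤
          (Submodule.span K (Set.range v)).comap U.mkQ := by
        rw [Submodule.span_le]
        rintro _ ⟨t, ht | ⟨i, hi, rfl⟩, rfl⟩
        · obtain ⟨a, rfl⟩ := ht
          have h4 : U.mkQ (dd (S.X a)) = 0 := by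
            rw [Submodule.mkQ_apply, Submodule.Quotient.mk_eq_zero]
            exact hδ (hS.span a)
          show U.mkQ (dd (S.X a)) ∈ Submodule.span K (Set.range v)
          rw [h4]
          exact Submodule.zero_mem _
        · have h4 : S.F i / S.F i₀ ≠ 0 := div_ne_zero (hS.F_ne i) (hS.F_ne i₀)
          show U.mkQ (dd (S.F i / S.F i₀)) ∈ Submodule.span K (Set.range v)
          rw [← smul_dlog h4, map_smul]
          exact Submodule.smul_mem _ _ (Submodule.subset_span ⟨⟨i, hi⟩, rfl⟩)
      exact h3 h2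
    rw [eq_top_iff]
    intro y _
    obtain ⟨y, rfl⟩ := U.mkQ_surjective y
    have h2 : y ∈ Submodule.span K (Set.range (KaehlerDifferential.D ℂ K)) := by
      rw [KaehlerDifferential.span_range_derivation]
      exact Submodule.mem_top
    have h3 : Submodule.span K (Set.range (KaehlerDifferential.D ℂ K)) ≤
        (Submodule.span K (Set.range v)).comap U.mkQ := by
      rw [Submodule.span_le]
      rintro _ ⟨x, rfl⟩
      exact h1 x
    exact h3 h2
  obtain ⟨r, I, -, h4, h5⟩ := exists_sub (K := K) v
  rw [hv] at h5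
  -- the number of elements
  have h6 : Module.finrank K U = p := by
    rw [hU, finrank_span_eq_card hJ.ind, Fintype.card_fin]
  have h7 : Module.finrank K (Ω[K⁄ℂ] ⧸ U) + Module.finrank K U = p + f := by
    rw [Submodule.finrank_quotient_add_finrank, hfr]
  have h8 : Module.finrank K (Ω[K⁄ℂ] ⧸ U) = r := by
    rw [← finrank_top, ← h5, finrank_span_eq_card h4, Fintype.card_fin]
  obtain rfl : r = f := by omega
  refine ⟨i₀, fun t => (I t).1, hi₀, fun t => (I t).2, ?_⟩
  have hli : LinearIndependent K (Fin.append (fun t => S.δ (J t)) (fun t => dlog (S.F (I t).1 / S.F i₀))) := by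
    rw [Fintype.linearIndependent_iff]
    intro g hg
    rw [Fin.sum_univ_add] at hg
    simp only [Fin.append_left, Fin.append_right] at hg
    have h9 : ∑ t, g (Fin.natAdd p t) • v (I t) = 0 := by
      have h10 := congrArg U.mkQ hg
      rw [map_add, map_zero, map_sum, map_sum] at h10
      rw [Finset.sum_eq_zero, zero_add] at h10
      · rw [← h10]
        refine Finset.sum_congr rfl fun t _ => ?_
        rw [map_smul]
      · intro t _
        rw [map_smul, Submodule.mkQ_apply, (Submodule.Quotient.mk_eq_zero U).2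
          (Submodule.subset_span ⟨t, rfl⟩), smul_zero]
    have h11 := Fintype.linearIndependent_iff.1 h4 _ h9
    have h12 : ∑ t, g (Fin.castAdd r t) • S.δ (J t) = 0 := by
      rw [← hg, left_eq_add]
      exact Finset.sum_eq_zero fun t _ => by rw [h11 t, zero_smul]
    have h13 := Fintype.linearIndependent_iff.1 hJ.ind _ h12
    intro i
    refine Fin.addCases (fun t => h13 t) (fun t => h11 t) i
  have hcard : Fintype.card (Fin (p + r)) = Module.finrank K Ω[K⁄ℂ] := by
    rw [hfr, Fintype.card_fin]
  let b : Module.Basis (Fin (p + r)) K Ω[K⁄ℂ] :=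
    Module.Basis.mk hli (hli.span_eq_top_of_card_eq_finrank' hcard).ge
  have h14 := Pool.Agent.H23.fc_self b
  intro h0
  have h15 : exteriorPower.ιMulti K (p + r) (fun i => b i) = S.W J i₀ (fun t => (I t).1) := by
    have h16 : (fun i => b i) = Fin.append (fun t => S.δ (J t)) (fun t => dlog (S.F (I t).1 / S.F i₀)) :=
      funext fun i => Module.Basis.mk_apply hli _ i
    rw [h16]
    rfl
  rw [h15, h0, map_zero] at h14
  exact zero_ne_one h14

end Pool.Agent.LH
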