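import Pool.Agent.LG.Defs

/-!
# LH Defs: the data on the function field for complements of hypersurfaces of `A × ℙ^m`

`K` is the function field of a variety `Z` with a map `(u, v)` to `A × ℙ^m`.

* `X b`, `δ i`: the functions and the differentials of the base `A` (as in `LG`); `S.AL x`: `x` is algebraic over `ℂ(X)`.
* `V l`: homogeneous coordinates of the map to `ℙ^m`; `S.mon β` is the monomial with exponent `β`.
* `F j`: the equations of the divisors `D_j`, all of the same degree `d` in `V`; `Y j s`, `s ∈ σ`: local generators of the line bundles of the `F j` on the base, as functions.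
* `CH S d v c l z`: at the valuation `v` the function `X c` has the smallest order and the `δ i` are regular combinations of the `d (X b / X c)`; `V l` has the smallest order; `Y j (z j)` generates the line bundle of `F j`.
* `GP`: general position of the `F i`, `i ∈ I`.
* `W J i₀ I`: the form `δ_J ∧ dlog (F (I 1) / F i₀) ∧ ⋯`; `Ps x r = dx ∧ dlog r`.
-/

set_option autoImplicit false

open MvPolynomial
open Pool.Agent.H23 (RatForm PrimeDivisorOver)
open Pool.Agent.LG (dd wd IV FV)

noncomputable section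

namespace Pool.Agent.LH

variable {K : Type} [Field K] [Algebra ℂ K] {ι σ : Type} {k n m q p f : ℕ}

/-- the data on the function field -/
structure Dat (K : Type) [Field K] [Algebra ℂ K] (ι σ : Type) (n m q : ℕ) where
  X : ι → K
  δ : Fin n → Ω[K⁄ℂ]
  V : Fin (m + 1) → K
  F : Fin q → K
  Y : Fin q → σ → K

/-- `x` is algebraic over the function field of the base -/
def Dat.AL (S : Dat K ι σ n m q) (x : K) : Prop := IsAlgebraic (IntermediateField.adjoin ℂ (Set.range S.X)) x

/-- the monomial with exponent `β` in the coordinates -/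
def Dat.mon (S : Dat K ι σ n m q) (β : Fin (m + 1) →₀ ℕ) : K := ∏ l, S.V l ^ β l

/-- general position of the `F i`, `i ∈ I`: all monomials of degree `N + d` are in the ideal -/
def Dat.GP (S : Dat K ι σ n m q) (d : ℕ) (I : Finset (Fin q)) : Prop :=
  ∃ N : ℕ, ∀ β : Fin (m + 1) →₀ ℕ, ∑ l, β l = N + d → ∃ C : Fin q → MvPolynomial (Fin (m + 1)) K, (∀ i, (C i).IsHomogeneous N) ∧ (∀ i γ, S.AL ((C i).coeff γ)) ∧ S.mon β = ∑ i ∈ I, eval S.V (C i) * S.F i

/-- a chart at an integer valued valuation -/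
structure CH [Fintype ι] (S : Dat K ι σ n m q) (d : ℕ) (v : K → ℤ) (c : ι) (l : Fin (m + 1)) (z : Fin q → σ) : Prop where
  Xne : S.X c ≠ 0
  Xle : ∀ b, S.X b ≠ 0 → v (S.X c) ≤ v (S.X b)
  Vne : S.V l ≠ 0
  Vle : ∀ l', S.V l' ≠ 0 → v (S.V l) ≤ v (S.V l')
  Yne : ∀ j, S.Y j (z j) ≠ 0
  Fle : ∀ j, v (S.Y j (z j)) + d * v (S.V l) ≤ v (S.F j)
  mat : ∃ M : Fin n → ι → K, (∀ i b, M i b ≠ 0 → 0 ≤ v (M i b)) ∧ ∀ i, S.δ i = ∑ b, M i b • dd (S.X b / S.X c)

/-- the properties of the data which do not depend on a divisor -/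
structure Dat.Base (S : Dat K ι σ n m q) (d : ℕ) : Prop where
  one : ∃ a, S.X a = 1
  V_ne : ∃ l, S.V l ≠ 0
  F_ne : ∀ j, S.F j ≠ 0
  Y_alg : ∀ j s, S.AL (S.Y j s)
  gp : ∀ I : Finset (Fin q), I.card = m + 1 → S.GP d I
  alg : Algebra.IsAlgebraic (IntermediateField.adjoin ℂ (Set.range S.X ∪ {y | ∃ l l', y = S.V l / S.V l'})) K
  span : ∀ a, dd (S.X a) ∈ Submodule.span K (Set.range S.δ)

/-- the logarithmic differential -/
def dlog (a : K) : Ω[K⁄ℂ] := a⁻¹ • dd a

/-- `δ_J ∧ dlog (F (I 1) / F i₀) ∧ ⋯` -/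
def Dat.W (S : Dat K ι σ n m q) (J : Fin p → Fin n) (i₀ : Fin q) (I : Fin f → Fin q) : RatForm K (p + f) :=
  wd (Fin.append (fun t => S.δ (J t)) (fun t => dlog (S.F (I t) / S.F i₀)))

/-- `dx ∧ dlog r` -/
def Ps (x : Fin p → K) (r : Fin f → K) : RatForm K (p + f) := wd (Fin.append (fun t => dd (x t)) (fun t => dlog (r t)))

/-- the `δ (J t)` are a basis of the differentials of the base -/
structure Dat.Bas (S : Dat K ι σ n m q) (J : Fin p → Fin n) : Prop where
  ind : LinearIndependent K (fun t => S.δ (J t))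
  span : ∀ i, S.δ i ∈ Submodule.span K (Set.range fun t => S.δ (J t))

end Pool.Agent.LH
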