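import Pool.Agent.LH.Defs
import Pool.Agent.LG.Wd
import Pool.Agent.LG.Pb

/-!
# LH Es: estimates for one form `dx ∧ dlog r`

`A = o (Ps x r) + 1`.  `Ps x r ≠ 0`, so `r t ≠ 0`, the `x`, `r` are algebraically independent (`algInd_of_wd`; `wd (dx, dr) = (∏ r) Ps x r`).
* `v_base`: `FV.log` for `(x, r)`: `∑ v (x) + ∑ v (r) ≤ o (wd (dx, dr)) + 1 = A + ∑ v (r)`.  For a polynomial `P` in `x`, not constant, take `j` with `∂_j P ≠ 0`; `FV.log` for `(x with x_j replaced by P (x), r)`, `wd_replace'`-like: `∑_(i ≠ j) v (x_i) + v (P (x)) + ∑ v (r) ≤ v (∂_j P (x)) + A + ∑ v (r)`; induction on the degree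
  (compare `LG/Vb.lean`).
* `v_all`: the same for polynomials in `(x, r)`; if `r_t` is replaced by `P`: `∑ v (x) + ∑_(s ≠ t) v (r_s) + v (P) ≤ v (∂_t P) + A + ∑ v (r)`, so `v (P) ≤ v (∂_t P) + v (r_t) + A ≤ v (∂_t P) + A + G`.
* `exists_mu_base`: `LG.exists_pbound` and `v_base`.
* `exists_mu`: `(x, r)` is a transcendence basis: `∑ P_i (x, r) φ^i = 0`, `P_0 ≠ 0`: `v (P_0) ≥ min_(i ≥ 1) (v (P_i) + i v (φ)) ≥ v (φ) - D G` where `D` bounds the degrees (`v (P_i (x, r)) ≥ - D G` because each monomial has order `≥ - D G`).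
-/

set_option autoImplicit false

open MvPolynomial
open Pool.Agent.H23 (RatForm PrimeDivisorOver)
open Pool.Agent.LG (dd wd IV FV)

noncomputable section

namespace Pool.Agent.LH

variable {K : Type} [Field K] [Algebra ℂ K] {ι σ : Type} {k n m q p f d w : ℕ}

private lemma Es_eq_C {σ : Type} (P : MvPolynomial σ ℂ)
    (h : ∀ i, pderiv i P = 0) : P = C (coeff 0 P) := by
  classical
  ext m
  rw [coeff_C]
  by_cases hm : m = 0
  · subst hm; simp
  · rw [if_neg (Ne.symm hm)]
    obtain ⟨i, hi⟩ : ∃ i, m i ≠ 0 := by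
      by_contra hcon
      push Not at hcon
      exact hm (Finsupp.ext hcon)
    have h1 := congrArg (coeff (m - Finsupp.single i 1)) (h i)
    rw [coeff_pderiv, coeff_zero] at h1
    have h2 : m - Finsupp.single i 1 + Finsupp.single i 1 = m :=
      Finsupp.sub_add_single_one_cancel hi
    rw [h2] at h1
    rcases mul_eq_zero.1 h1 with h1 | h1
    · exact h1
    · exfalso
      have : ((((m - Finsupp.single i 1 : σ →₀ ℕ)) i + 1 : ℕ) : ℂ) = 0 := by push_cast; exact h1
      exact Nat.cast_ne_zero.2 (Nat.succ_ne_zero _) this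

private lemma Es_totalDegree {σ : Type} (P : MvPolynomial σ ℂ) (i : σ) (h : pderiv i P ≠ 0) :
    (pderiv i P).totalDegree < P.totalDegree := by
  classical
  obtain ⟨m, hm, hmd⟩ := Finset.exists_mem_eq_sup (pderiv i P).support
    (support_nonempty.2 h) (fun s => s.sum fun _ e => e)
  rw [mem_support_iff, coeff_pderiv] at hm
  have h1 : coeff (m + Finsupp.single i 1) P ≠ 0 := left_ne_zero_of_mul hm
  have h2 := le_totalDegree (mem_support_iff.2 h1)
  have h3 : (m + Finsupp.single i 1).degree = m.degree + 1 := by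
    rw [map_add, Finsupp.degree_single]
  have h4 : (m + Finsupp.single i 1).sum (fun _ e => e) = (m + Finsupp.single i 1).degree := rfl
  have h5 : m.sum (fun _ e => e) = m.degree := rfl
  have h6 : (pderiv i P).totalDegree = m.degree := hmd
  rw [h4, h3] at h2
  omega

private lemma Es_step {m : ℕ} {v : K → ℤ} (hv : IV K v) (x : Fin m → K) {p : MvPolynomial (Fin m) ℂ} (hp : p ≠ 0) :
    v (aeval x p) = 0 ∨ ∃ j, pderiv j p ≠ 0 ∧ (pderiv j p).totalDegree < p.totalDegree := by
  by_cases h : ∀ i, pderiv i p = 0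
  · left
    have h1 := Es_eq_C p h
    rw [h1, aeval_C]
    refine hv.const _ ?_
    intro h2
    rw [h2, map_zero] at h1
    exact hp h1
  · right
    push Not at h
    obtain ⟨j, hj⟩ := h
    exact ⟨j, hj, Es_totalDegree p j hj⟩

/-- the induction on the degree -/
private lemma Es_ind {m : ℕ} {v : K → ℤ} (hv : IV K v) (x : Fin m → K) {A : ℤ} (hA : 0 ≤ A)
    (hstep : ∀ p : MvPolynomial (Fin m) ℂ, p ≠ 0 → ∀ j, pderiv j p ≠ 0 → v (aeval x p) ≤ v (aeval x (pderiv j p)) + A) :
    ∀ N : ℕ, ∀ p : MvPolynomial (Fin m) ℂ, p ≠ 0 → p.totalDegree ≤ N → v (aeval x p) ≤ p.totalDegree * A := by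
  intro N
  induction N with
  | zero =>
    intro p hp hN
    rcases Es_step hv x hp with h | ⟨j, _, hj⟩
    · rw [h]; exact mul_nonneg (Int.natCast_nonneg _) hA
    · omega
  | succ N ih =>
    intro p hp hN
    rcases Es_step hv x hp with h | ⟨j, hq, hj⟩
    · rw [h]; exact mul_nonneg (Int.natCast_nonneg _) hA
    · have h1 := ih _ hq (by omega)
      have h2 := hstep p hp j hq
      have h3 : (((pderiv j p).totalDegree : ℤ) + 1) * A ≤ p.totalDegree * A := by
        refine mul_le_mul_of_nonneg_right ?_ hA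
        exact_mod_cast hj
      calc v (aeval x p) ≤ v (aeval x (pderiv j p)) + A := h2
        _ ≤ (pderiv j p).totalDegree * A + A := by linarith
        _ = (((pderiv j p).totalDegree : ℤ) + 1) * A := by ring
        _ ≤ _ := h3

private lemma Es_ne {m : ℕ} {x : Fin m → K} (hx : AlgebraicIndependent ℂ x) {p : MvPolynomial (Fin m) ℂ} (hp : p ≠ 0) :
    aeval x p ≠ 0 := by
  intro h
  exact hp (algebraicIndependent_iff.1 hx p h)

private lemma Es_x_ne {m : ℕ} {x : Fin m → K} (hx : AlgebraicIndependent ℂ x) (i : Fin m) : x i ≠ 0 := by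
  have h := Es_ne hx (p := X i) (X_ne_zero i)
  rwa [aeval_X] at h

theorem r_ne {x : Fin p → K} {r : Fin f → K} (h : Ps x r ≠ 0) (t : Fin f) : r t ≠ 0 := by
  intro h0
  refine h ?_
  unfold Ps wd
  refine AlternatingMap.map_coord_zero _ (Fin.natAdd p t) ?_
  rw [Fin.append_right, dlog, h0, inv_zero, zero_smul]

/-- `dx ∧ dlog r` is `dx ∧ dr` divided by the product of the `r` -/
private lemma Es_ps (x : Fin p → K) (r : Fin f → K) :
    Ps x r = (∏ t, (r t)⁻¹) • wd (fun i => dd (Fin.append x r i)) := by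
  have h1 : (Fin.append (fun t => dd (x t)) (fun t => dlog (r t)) : Fin (p + f) → Ω[K⁄ℂ]) =
      fun i => (Fin.append (fun _ : Fin p => (1 : K)) (fun t => (r t)⁻¹) i) • dd (Fin.append x r i) := by
    funext i
    refine Fin.addCases (fun t => ?_) (fun t => ?_) i
    · rw [Fin.append_left, Fin.append_left, Fin.append_left, one_smul]
    · rw [Fin.append_right, Fin.append_right, Fin.append_right, dlog]
  have h2 := MultilinearMap.map_smul_univ (exteriorPower.ιMulti K (p + f) (M := Ω[K⁄ℂ])).toMultilinearMap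
    (Fin.append (fun _ : Fin p => (1 : K)) (fun t => (r t)⁻¹)) (fun i => dd (Fin.append x r i))
  have h3 : (∏ i, Fin.append (fun _ : Fin p => (1 : K)) (fun t => (r t)⁻¹) i) = ∏ t, (r t)⁻¹ := by
    rw [Fin.prod_univ_add]
    simp only [Fin.append_left, Fin.append_right, Finset.prod_const_one, one_mul]
  rw [h3] at h2
  unfold Ps wd
  rw [h1]
  exact h2

private lemma Es_wd {x : Fin p → K} {r : Fin f → K} (h : Ps x r ≠ 0) :
    wd (fun i => dd (Fin.append x r i)) = (∏ t, r t) • Ps x r := by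
  rw [Es_ps x r, smul_smul, ← Finset.prod_mul_distrib, Finset.prod_eq_one, one_smul]
  intro t _
  exact mul_inv_cancel₀ (r_ne h t)

private lemma Es_prod_ne {x : Fin p → K} {r : Fin f → K} (h : Ps x r ≠ 0) : (∏ t, r t) ≠ 0 :=
  Finset.prod_ne_zero_iff.2 fun t _ => r_ne h t

private lemma Es_wd_ne {x : Fin p → K} {r : Fin f → K} (h : Ps x r ≠ 0) :
    wd (fun i => dd (Fin.append x r i)) ≠ 0 := by
  rw [Es_wd h]
  exact smul_ne_zero (Es_prod_ne h) h

theorem algInd_of_ps {x : Fin p → K} {r : Fin f → K} (h : Ps x r ≠ 0) : AlgebraicIndependent ℂ (Fin.append x r) :=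
  Pool.Agent.LG.algInd_of_wd (Es_wd_ne h)

private lemma Es_v_one {v : K → ℤ} (hv : IV K v) : v 1 = 0 := by
  have h := hv.const 1 one_ne_zero
  rwa [map_one] at h

private lemma Es_v_prod {v : K → ℤ} (hv : IV K v) {α : Type} (s : Finset α) (g : α → K) (hg : ∀ t ∈ s, g t ≠ 0) :
    v (∏ t ∈ s, g t) = ∑ t ∈ s, v (g t) := by
  classical
  induction s using Finset.induction_on with
  | empty => rw [Finset.prod_empty, Finset.sum_empty, Es_v_one hv]
  | insert a s ha ih =>
    rw [Finset.prod_insert ha, Finset.sum_insert ha, hv.mul (hg a (Finset.mem_insert_self _ _)) (Finset.prod_ne_zero_iff.2 fun t ht => hg t (Finset.mem_insert_of_mem ht)),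
      ih fun t ht => hg t (Finset.mem_insert_of_mem ht)]

/-- the estimate of `FV.log` for `(x, r)` with one entry replaced by a polynomial -/
private lemma Es_log {x : Fin p → K} {r : Fin f → K} (hne : Ps x r ≠ 0) {v : K → ℤ} {o : RatForm K (p + f) → ℤ} (h : FV (p + f) v o)
    {P : MvPolynomial (Fin (p + f)) ℂ} (hP : P ≠ 0) (j : Fin (p + f)) (hq : pderiv j P ≠ 0) :
    ∑ i ∈ Finset.univ.erase j, v (Fin.append x r i) + v (aeval (Fin.append x r) P) ≤
      v (aeval (Fin.append x r) (pderiv j P)) + (∑ t, v (r t) + o (Ps x r) + 1) := by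
  classical
  have hind := algInd_of_ps hne
  have hqx := Es_ne hind hq
  have hpx := Es_ne hind hP
  have h1 := Pool.Agent.LG.wd_replace' (Fin.append x r) P j
  have h2 : wd (fun i => dd (Function.update (Fin.append x r) j (aeval (Fin.append x r) P) i)) ≠ 0 := by
    rw [h1]; exact smul_ne_zero hqx (Es_wd_ne hne)
  have h3 := h.log (Function.update (Fin.append x r) j (aeval (Fin.append x r) P)) (by
    intro i
    by_cases hij : i = j
    · subst hij; rw [Function.update_self]; exact hpx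
    · rw [Function.update_of_ne hij]; exact Es_x_ne hind i) h2
  rw [h1, h.smul hqx (Es_wd_ne hne), Es_wd hne, h.smul (Es_prod_ne hne) hne, Es_v_prod h.toIV _ _ fun t _ => r_ne hne t] at h3
  have h4 : ∑ i, v (Function.update (Fin.append x r) j (aeval (Fin.append x r) P) i) =
      ∑ i ∈ Finset.univ.erase j, v (Fin.append x r i) + v (aeval (Fin.append x r) P) := by
    rw [← Finset.add_sum_erase Finset.univ _ (Finset.mem_univ j), Function.update_self, add_comm]
    congr 1
    refine Finset.sum_congr rfl fun i hi => ?_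
    rw [Function.update_of_ne (Finset.ne_of_mem_erase hi)]
  rw [h4] at h3
  linarith

omit [Field K] [Algebra ℂ K] in
private lemma Es_sum (v : K → ℤ) (x : Fin p → K) (r : Fin f → K) :
    ∑ i, v (Fin.append x r i) = ∑ t, v (x t) + ∑ t, v (r t) := by
  rw [Fin.sum_univ_add]
  simp only [Fin.append_left, Fin.append_right]

omit [Field K] [Algebra ℂ K] in
private lemma Es_erase (v : K → ℤ) (x : Fin p → K) (r : Fin f → K) (j : Fin (p + f)) :
    ∑ i ∈ Finset.univ.erase j, v (Fin.append x r i) = ∑ t, v (x t) + ∑ t, v (r t) - v (Fin.append x r j) := by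
  have h1 := Finset.add_sum_erase Finset.univ (fun i => v (Fin.append x r i)) (Finset.mem_univ j)
  rw [Es_sum] at h1
  linarith

theorem A_nonneg {x : Fin p → K} {r : Fin f → K} (hne : Ps x r ≠ 0) {v : K → ℤ} {o : RatForm K (p + f) → ℤ} (h : FV (p + f) v o) (h0 : ∀ t, 0 ≤ v (x t)) : 0 ≤ o (Ps x r) + 1 := by
  have h1 := h.log (Fin.append x r) (Es_x_ne (algInd_of_ps hne)) (Es_wd_ne hne)
  rw [Es_sum, Es_wd hne, h.smul (Es_prod_ne hne) hne, Es_v_prod h.toIV _ _ fun t _ => r_ne hne t] at h1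
  have h2 : 0 ≤ ∑ t, v (x t) := Finset.sum_nonneg fun t _ => h0 t
  linarith

omit [Field K] [Algebra ℂ K] in
private lemma Es_append_ge (v : K → ℤ) (x : Fin p → K) (h0 : ∀ t, 0 ≤ v (x t)) (j : Fin p) :
    0 ≤ ∑ t, v (x t) - v (x j) := by
  have h1 := Finset.add_sum_erase Finset.univ (fun i => v (x i)) (Finset.mem_univ j)
  have h2 : 0 ≤ ∑ i ∈ Finset.univ.erase j, v (x i) := Finset.sum_nonneg fun i _ => h0 i
  linarith

theorem v_base {x : Fin p → K} {r : Fin f → K} (hne : Ps x r ≠ 0) {v : K → ℤ} {o : RatForm K (p + f) → ℤ} (h : FV (p + f) v o) (h0 : ∀ t, 0 ≤ v (x t)) {P : MvPolynomial (Fin p) ℂ} (hP : P ≠ 0) :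
    v (aeval x P) ≤ P.totalDegree * (o (Ps x r) + 1) := by
  have hA := A_nonneg hne h h0
  have hinj : Function.Injective (Fin.castAdd f : Fin p → Fin (p + f)) := Fin.castAdd_injective p f
  have hx : (Fin.append x r) ∘ (Fin.castAdd f) = x := by
    funext i
    exact Fin.append_left _ _ _
  have hren : ∀ Q : MvPolynomial (Fin p) ℂ, aeval (Fin.append x r) (rename (Fin.castAdd f) Q) = aeval x Q := by
    intro Q
    rw [aeval_rename, hx]
  refine Es_ind h.toIV x hA ?_ P.totalDegree P hP le_rfl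
  intro P hP j hq
  have h1 : rename (Fin.castAdd f) P ≠ 0 := fun h2 => hP (rename_injective _ hinj (by rw [h2, map_zero]))
  have h2 : pderiv (Fin.castAdd f j) (rename (Fin.castAdd f) P) = rename (Fin.castAdd f) (pderiv j P) :=
    pderiv_rename hinj _ _
  have h3 : pderiv (Fin.castAdd f j) (rename (Fin.castAdd f) P) ≠ 0 := by
    rw [h2]
    exact fun h4 => hq (rename_injective _ hinj (by rw [h4, map_zero]))
  have h5 := Es_log hne h h1 (Fin.castAdd f j) h3
  rw [h2, hren, hren, Es_erase, Fin.append_left] at h5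
  have h6 := Es_append_ge v x h0 j
  linarith

theorem v_all {x : Fin p → K} {r : Fin f → K} (hne : Ps x r ≠ 0) {v : K → ℤ} {o : RatForm K (p + f) → ℤ} (h : FV (p + f) v o) (h0 : ∀ t, 0 ≤ v (x t)) {G : ℤ} (hG : 0 ≤ G) (hr : ∀ t, v (r t) ≤ G) {P : MvPolynomial (Fin (p + f)) ℂ} (hP : P ≠ 0) :
    v (aeval (Fin.append x r) P) ≤ P.totalDegree * (o (Ps x r) + 1 + G) := by
  have hA := A_nonneg hne h h0
  refine Es_ind h.toIV (Fin.append x r) (by linarith) ?_ P.totalDegree P hP le_rfl
  intro P hP j hq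
  have h5 := Es_log hne h hP j hq
  rw [Es_erase] at h5
  induction j using Fin.addCases with
  | left t =>
    rw [Fin.append_left] at h5
    have h6 := Es_append_ge v x h0 t
    linarith
  | right t =>
    rw [Fin.append_right] at h5
    have h6 : 0 ≤ ∑ t, v (x t) := Finset.sum_nonneg fun t _ => h0 t
    have h7 := hr t
    linarith

theorem exists_mu_base {x : Fin p → K} {r : Fin f → K} (hne : Ps x r ≠ 0) {φ : K} (hφ : φ ≠ 0) (halg : IsAlgebraic (IntermediateField.adjoin ℂ (Set.range x)) φ) :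
    ∃ μ : ℤ, 0 ≤ μ ∧ ∀ (v : K → ℤ) (o : RatForm K (p + f) → ℤ), FV (p + f) v o → (∀ t, 0 ≤ v (x t)) → v φ ≤ μ * (o (Ps x r) + 1) := by
  have hx : (Fin.append x r) ∘ (Fin.castAdd f) = x := by
    funext i
    exact Fin.append_left _ _ _
  have hind : AlgebraicIndependent ℂ x := by
    have h1 := (algInd_of_ps hne).comp (Fin.castAdd f) (Fin.castAdd_injective p f)
    rwa [hx] at h1
  obtain ⟨P, hP, hbd⟩ := Pool.Agent.LG.exists_pbound hind hφ (IntermediateField.isAlgebraic_adjoin_iff.1 halg)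
  refine ⟨P.totalDegree, Int.natCast_nonneg _, fun v o h h0 => ?_⟩
  have hA := A_nonneg hne h h0
  by_cases hv : 0 ≤ v φ
  · exact (hbd v h.toIV (fun i _ => h0 i) hv).trans (v_base hne h h0 hP)
  · have h1 : (0 : ℤ) ≤ P.totalDegree * (o (Ps x r) + 1) := mul_nonneg (Int.natCast_nonneg _) hA
    linarith

/-- the order is at least `c`, or the element is zero -/
private def Ge (v : K → ℤ) (c : ℤ) (a : K) : Prop := a ≠ 0 → c ≤ v a

omit [Algebra ℂ K] in
private lemma Ge.zero (v : K → ℤ) (c : ℤ) : Ge v c 0 := fun h => absurd rfl h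

omit [Algebra ℂ K] in
private lemma Ge.mono {v : K → ℤ} {c c' : ℤ} {a : K} (h : Ge v c a) (hc : c' ≤ c) : Ge v c' a := fun ha => hc.trans (h ha)

private lemma Ge.add {v : K → ℤ} (hv : IV K v) {c : ℤ} {a b : K} (ha : Ge v c a) (hb : Ge v c b) : Ge v c (a + b) := by
  intro hab
  by_cases h1 : a = 0
  · subst h1
    rw [zero_add] at hab ⊢
    exact hb hab
  by_cases h2 : b = 0
  · subst h2
    rw [add_zero] at hab ⊢
    exact ha hab
  exact (le_min (ha h1) (hb h2)).trans (hv.add h1 h2 hab)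

private lemma Ge.mul {v : K → ℤ} (hv : IV K v) {c c' : ℤ} {a b : K} (ha : Ge v c a) (hb : Ge v c' b) : Ge v (c + c') (a * b) := by
  intro hab
  have h1 := left_ne_zero_of_mul hab
  have h2 := right_ne_zero_of_mul hab
  rw [hv.mul h1 h2]
  exact add_le_add (ha h1) (hb h2)

private lemma Ge.sum {v : K → ℤ} (hv : IV K v) {α : Type} (s : Finset α) (g : α → K) {c : ℤ} (hg : ∀ t ∈ s, Ge v c (g t)) : Ge v c (∑ t ∈ s, g t) := by
  classical
  induction s using Finset.induction_on with
  | empty => rw [Finset.sum_empty]; exact Ge.zero v c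
  | insert a s ha ih =>
    rw [Finset.sum_insert ha]
    exact Ge.add hv (hg a (Finset.mem_insert_self _ _)) (ih fun t ht => hg t (Finset.mem_insert_of_mem ht))

private lemma Ge.pow {v : K → ℤ} (hv : IV K v) {c : ℤ} {a : K} (ha : Ge v c a) (i : ℕ) : Ge v (i * c) (a ^ i) := by
  induction i with
  | zero =>
    intro _
    rw [pow_zero, Es_v_one hv]
    simp
  | succ i ih =>
    rw [pow_succ]
    refine (Ge.mul hv ih ha).mono ?_
    push_cast
    linarith

private lemma Ge.prod {v : K → ℤ} (hv : IV K v) {α : Type} (s : Finset α) (g : α → K) {c : α → ℤ} (hg : ∀ t ∈ s, Ge v (c t) (g t)) : Ge v (∑ t ∈ s, c t) (∏ t ∈ s, g t) := by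
  classical
  induction s using Finset.induction_on with
  | empty =>
    intro _
    rw [Finset.prod_empty, Finset.sum_empty, Es_v_one hv]
  | insert a s ha ih =>
    rw [Finset.prod_insert ha, Finset.sum_insert ha]
    exact Ge.mul hv (hg a (Finset.mem_insert_self _ _)) (ih fun t ht => hg t (Finset.mem_insert_of_mem ht))

/-- the value of a polynomial has order at least `- deg G` -/
private lemma Es_ge {v : K → ℤ} (hv : IV K v) {m : ℕ} {a : Fin m → K} {G : ℤ} (hG : 0 ≤ G) (ha : ∀ i, Ge v (-G) (a i)) (P : MvPolynomial (Fin m) ℂ) :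
    Ge v (-(P.totalDegree * G)) (aeval a P) := by
  rw [aeval_def, eval₂_eq']
  refine Ge.sum hv _ _ fun e he => ?_
  have h1 : Ge v 0 (algebraMap ℂ K (coeff e P)) := by
    intro h2
    refine (hv.const _ ?_).ge
    rintro h3
    exact h2 (by rw [h3, map_zero])
  have h2 : Ge v (∑ i, (e i : ℤ) * (-G)) (∏ i, a i ^ e i) :=
    Ge.prod hv _ _ fun i _ => Ge.pow hv (ha i) (e i)
  refine (Ge.mul hv h1 h2).mono ?_
  rw [← Finset.sum_mul, zero_add]
  have h3 : (∑ i, e i) ≤ P.totalDegree := by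
    have h4 := le_totalDegree he
    rwa [Finsupp.sum_fintype _ _ (fun _ => rfl)] at h4
  have h5 : (∑ i, (e i : ℤ)) * G ≤ P.totalDegree * G := by
    refine mul_le_mul_of_nonneg_right ?_ hG
    exact_mod_cast h3
  linarith

private theorem Es_rel {L : Type} [Field L] [Algebra ℂ L] {m : ℕ} {x : Fin m → L} (hx : AlgebraicIndependent ℂ x) {h : L} (hh : h ≠ 0) (halg : IsAlgebraic (Algebra.adjoin ℂ (Set.range x)) h) :
    ∃ F : Polynomial (MvPolynomial (Fin m) ℂ), F.coeff 0 ≠ 0 ∧ F.eval₂ (MvPolynomial.aeval x).toRingHom h = 0 := by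
  obtain ⟨F, hF, hFh⟩ : ∃ F : Polynomial (MvPolynomial (Fin m) ℂ), F ≠ 0 ∧ F.eval₂ (MvPolynomial.aeval x).toRingHom h = 0 := by
    obtain ⟨p, hp, hph⟩ := halg
    refine ⟨p.map hx.aevalEquiv.symm.toRingEquiv.toRingHom, ?_, ?_⟩
    · have hinj : Function.Injective hx.aevalEquiv.symm.toRingEquiv.toRingHom := hx.aevalEquiv.symm.injective
      exact (Polynomial.map_ne_zero_iff hinj).2 hp
    · rw [Polynomial.eval₂_map]
      have hc : ((MvPolynomial.aeval x).toRingHom : MvPolynomial (Fin m) ℂ →+* L).comp hx.aevalEquiv.symm.toRingEquiv.toRingHom =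
          algebraMap (Algebra.adjoin ℂ (Set.range x)) L := by
        ext y
        obtain ⟨q, rfl⟩ := hx.aevalEquiv.surjective y
        have h1 : hx.aevalEquiv.symm.toRingEquiv.toRingHom (hx.aevalEquiv q) = q := hx.aevalEquiv.symm_apply_apply q
        rw [RingHom.comp_apply, h1, hx.algebraMap_aevalEquiv q]
        rfl
      rw [hc]
      exact hph
  obtain ⟨G, hG⟩ := Polynomial.exists_eq_pow_rootMultiplicity_mul_and_not_dvd F hF 0
  rw [map_zero, sub_zero] at hG
  refine ⟨G, fun h1 => hG.2 (Polynomial.X_dvd_iff.2 h1), ?_⟩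
  rw [hG.1, Polynomial.eval₂_mul, Polynomial.eval₂_pow, Polynomial.eval₂_X] at hFh
  exact (mul_eq_zero.1 hFh).resolve_left (pow_ne_zero _ hh)

theorem exists_mu {z : Fin (p + f) → K} (hz : IsTranscendenceBasis ℂ z) {x : Fin p → K} {r : Fin f → K} (hne : Ps x r ≠ 0) {φ : K} (hφ : φ ≠ 0) :
    ∃ μ : ℤ, 0 ≤ μ ∧ ∀ (v : K → ℤ) (o : RatForm K (p + f) → ℤ) (G : ℤ), FV (p + f) v o → (∀ t, 0 ≤ v (x t)) → 0 ≤ G → (∀ t, |v (r t)| ≤ G) → v φ ≤ μ * (o (Ps x r) + 1 + G) := by
  have hind := algInd_of_ps hne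
  have htb := Pool.Agent.LG.basis_of_wd hz (Es_wd_ne hne)
  have halg : IsAlgebraic (Algebra.adjoin ℂ (Set.range (Fin.append x r))) φ :=
    htb.isAlgebraic.isAlgebraic φ
  obtain ⟨F, hF0, hFφ⟩ := Es_rel hind hφ halg
  obtain ⟨D, hD⟩ : ∃ D : ℕ, ∀ i, (F.divX.coeff i).totalDegree ≤ D := by
    refine ⟨∑ i ∈ Finset.range (F.divX.natDegree + 1), (F.divX.coeff i).totalDegree, fun i => ?_⟩
    by_cases hi : i < F.divX.natDegree + 1
    · exact Finset.single_le_sum (f := fun i => (F.divX.coeff i).totalDegree) (fun _ _ => Nat.zero_le _) (Finset.mem_range.2 hi)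
    · rw [Polynomial.coeff_eq_zero_of_natDegree_lt (by omega), totalDegree_zero]
      exact Nat.zero_le _
  refine ⟨((F.coeff 0).totalDegree : ℤ) + D, by positivity, fun v o G h h0 hG hr => ?_⟩
  have hA := A_nonneg hne h h0
  have hAG : 0 ≤ o (Ps x r) + 1 + G := by linarith
  by_cases hv : 0 ≤ v φ
  swap
  · have h1 : (0 : ℤ) ≤ (((F.coeff 0).totalDegree : ℤ) + D) * (o (Ps x r) + 1 + G) := mul_nonneg (by positivity) hAG
    linarith
  have hp0 : aeval (Fin.append x r) (F.coeff 0) ≠ 0 := Es_ne hind hF0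
  have h1 : F.eval₂ (MvPolynomial.aeval (Fin.append x r)).toRingHom φ =
      MvPolynomial.aeval (Fin.append x r) (F.coeff 0) +
        φ * F.divX.eval₂ (MvPolynomial.aeval (Fin.append x r)).toRingHom φ := by
    conv_lhs => rw [← Polynomial.divX_mul_X_add F]
    rw [Polynomial.eval₂_add, Polynomial.eval₂_mul, Polynomial.eval₂_X, Polynomial.eval₂_C]
    rw [add_comm, mul_comm]
    rfl
  rw [hFφ] at h1
  have hge : ∀ i, Ge v (-G) (Fin.append x r i) := by
    intro i
    refine Fin.addCases (fun t => ?_) (fun t => ?_) i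
    · intro _
      rw [Fin.append_left]
      exact (by linarith : -G ≤ 0).trans (h0 t)
    · intro _
      rw [Fin.append_right]
      exact (abs_le.1 (hr t)).1
  have h2 : Ge v (-(D * G)) (F.divX.eval₂ (MvPolynomial.aeval (Fin.append x r)).toRingHom φ) := by
    rw [Polynomial.eval₂_eq_sum_range]
    refine Ge.sum h.toIV _ _ fun i _ => ?_
    have h3 : Ge v (-((F.divX.coeff i).totalDegree * G)) (aeval (Fin.append x r) (F.divX.coeff i)) := Es_ge h.toIV hG hge _
    have h4 : Ge v ((i : ℤ) * 0) (φ ^ i) := Ge.pow h.toIV (fun _ => hv) i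
    refine (Ge.mul h.toIV h3 h4).mono ?_
    have h5 : ((F.divX.coeff i).totalDegree : ℤ) * G ≤ D * G := by
      refine mul_le_mul_of_nonneg_right ?_ hG
      exact_mod_cast hD i
    linarith
  set B := F.divX.eval₂ (MvPolynomial.aeval (Fin.append x r)).toRingHom φ with hB
  have hB0 : B ≠ 0 := by
    intro h3
    rw [h3, mul_zero, add_zero] at h1
    exact hp0 h1.symm
  have h3 : aeval (Fin.append x r) (F.coeff 0) = algebraMap ℂ K (-1) * (φ * B) := by
    rw [map_neg, map_one, neg_one_mul]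
    exact eq_neg_of_add_eq_zero_left h1.symm
  have h4 : v (aeval (Fin.append x r) (F.coeff 0)) = v φ + v B := by
    rw [h3, h.toIV.mul (by rw [map_neg, map_one]; exact neg_ne_zero.2 one_ne_zero) (mul_ne_zero hφ hB0), h.toIV.const _ (by norm_num), h.toIV.mul hφ hB0, zero_add]
  have h5 := v_all hne h h0 hG (fun t => (le_abs_self _).trans (hr t)) hF0
  have h6 := h2 hB0
  rw [h4] at h5
  have h7 : (D : ℤ) * G ≤ D * (o (Ps x r) + 1 + G) := mul_le_mul_of_nonneg_left (by linarith) (Int.natCast_nonneg _)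
  rw [add_mul]
  linarith

end Pool.Agent.LH
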