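import Pool.Agent.LH.Tm

/-!
# LH Gh: general position at one valuation, and the bound by one form

`a_j = v (F j) - v (Y j (z j)) - d v (V l) ≥ 0` (`CH.Fle`).

* `exists_H`: for each `I'` take `GP` for `β = (N + d) e_l`, for every `l`: `V_l^(N+d) = ∑_i C_i(V) F_i`.  `H` is the set of the `(coeff γ (C_i) * Y i s)⁻¹` (all `I'`, `l`, `i`, `γ` in the support, `s`; nonzero ones).  At `v`: some term `coeff * mon γ * F i ≠ 0` has `v ≤ (N + d) v (V l)`, and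
  `v (mon γ) ≥ N v (V l)`: `a_i ≤ v ((coeff * Y i (z i))⁻¹)`.  `AL` elements are closed under products and inverses.
* `base_bound`: `exists_B`, `exists_mu_base`, `alg_x`.
* `form_bound`: finitely many `(c, l, z, i₀, I, B)` (functions into finite types); for those with `Ps ≠ 0` (`x t = X (B t) / X c`, `r^`) take `μ` of `exists_mu_base` for the `h ∈ H` (`alg_x`) and `μ` of `exists_mu` for the `F j / (Y j (z j) V_l^d)`; `N` = a sum of products of all of them.  At `v`: `exists_B`; `G = max (0, v (h) : h ∈ H) ≤ μ₁ A`;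
  `|v (r^ t)| = |a_(I t) - a_(i₀)| ≤ G` (because `0 ≤ a ≤ G` for both), so `a_j ≤ μ₂ (A + G) ≤ N A`, `A = o (Ps x r^) + 1 ≤ o (W J i₀ I) + 1`.
-/

set_option autoImplicit false

open MvPolynomial
open Pool.Agent.H23 (RatForm PrimeDivisorOver)
open Pool.Agent.LG (dd wd IV FV)

noncomputable section

namespace Pool.Agent.LH

variable {K : Type} [Field K] [Algebra ℂ K] {ι σ : Type} {k n m q p f d w : ℕ}

private theorem gh_one {v : K → ℤ} (h : IV K v) : v 1 = 0 := by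
  simpa using h.const 1 one_ne_zero

private theorem gh_inv {v : K → ℤ} (h : IV K v) {a : K} (ha : a ≠ 0) : v a⁻¹ = - v a := by
  have h1 := h.mul ha (inv_ne_zero ha)
  rw [mul_inv_cancel₀ ha, gh_one h] at h1
  omega

private theorem gh_div {v : K → ℤ} (h : IV K v) {a b : K} (ha : a ≠ 0) (hb : b ≠ 0) : v (a / b) = v a - v b := by
  rw [div_eq_mul_inv, h.mul ha (inv_ne_zero hb), gh_inv h hb]
  ring

private theorem gh_pow {v : K → ℤ} (h : IV K v) {a : K} (ha : a ≠ 0) (N : ℕ) : v (a ^ N) = N * v a := by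
  induction N with
  | zero => simpa using gh_one h
  | succ N ih =>
    rw [pow_succ, h.mul (pow_ne_zero _ ha) ha, ih]
    push_cast
    ring

/-- a nonzero sum has a nonzero term whose order is at most that of the sum -/
private theorem gh_sum {v : K → ℤ} (h : IV K v) {α : Type} (s : Finset α) (a : α → K) (hs : ∑ i ∈ s, a i ≠ 0) :
    ∃ i ∈ s, a i ≠ 0 ∧ v (a i) ≤ v (∑ i ∈ s, a i) := by
  classical
  induction s using Finset.induction_on with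
  | empty => exact absurd Finset.sum_empty hs
  | insert i s hi ih =>
    rw [Finset.sum_insert hi] at hs ⊢
    by_cases h1 : a i = 0
    · rw [h1, zero_add] at hs ⊢
      obtain ⟨j, hj, h2, h3⟩ := ih hs
      exact ⟨j, Finset.mem_insert_of_mem hj, h2, h3⟩
    · by_cases h2 : ∑ i ∈ s, a i = 0
      · rw [h2, add_zero]
        exact ⟨i, Finset.mem_insert_self _ _, h1, le_rfl⟩
      · have h3 := h.add h1 h2 hs
        rcases min_le_iff.1 h3 with h4 | h4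
        · exact ⟨i, Finset.mem_insert_self _ _, h1, h4⟩
        · obtain ⟨j, hj, h5, h6⟩ := ih h2
          exact ⟨j, Finset.mem_insert_of_mem hj, h5, h6.trans h4⟩

private theorem gh_mon {S : Dat K ι σ n m q} {v : K → ℤ} (h : IV K v) {l : Fin (m + 1)}
    (hl : ∀ l', S.V l' ≠ 0 → v (S.V l) ≤ v (S.V l')) {γ : Fin (m + 1) →₀ ℕ} (h0 : ∏ l', S.V l' ^ γ l' ≠ 0) :
    (∑ l', (γ l' : ℤ)) * v (S.V l) ≤ v (∏ l', S.V l' ^ γ l') := by
  classical
  have key : ∀ s : Finset (Fin (m + 1)), (∏ l' ∈ s, S.V l' ^ γ l') ≠ 0 →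
      (∑ l' ∈ s, (γ l' : ℤ)) * v (S.V l) ≤ v (∏ l' ∈ s, S.V l' ^ γ l') := by
    intro s
    induction s using Finset.induction_on with
    | empty =>
      intro _
      simp [gh_one h]
    | insert a s ha ih =>
      rw [Finset.prod_insert ha, Finset.sum_insert ha]
      intro h1
      have h2 := left_ne_zero_of_mul h1
      have h3 := right_ne_zero_of_mul h1
      rw [h.mul h2 h3, add_mul]
      refine add_le_add ?_ (ih h3)
      by_cases h4 : γ a = 0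
      · rw [h4, pow_zero, gh_one h]
        simp
      · have h5 : S.V a ≠ 0 := fun h6 => h2 (by rw [h6, zero_pow h4])
        rw [gh_pow h h5]
        exact mul_le_mul_of_nonneg_left (hl a h5) (Int.natCast_nonneg _)
  exact key Finset.univ h0

private theorem gh_mon_single (S : Dat K ι σ n m q) (l : Fin (m + 1)) (N : ℕ) : S.mon (Finsupp.single l N) = S.V l ^ N := by
  unfold Dat.mon
  rw [Finset.prod_eq_single l]
  · rw [Finsupp.single_eq_same]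
  · intro b _ hb
    rw [Finsupp.single_apply, if_neg (fun h => hb h.symm), pow_zero]
  · intro h
    exact absurd (Finset.mem_univ l) h

private theorem gh_sup {α : Type} [Finite α] (μ : α → ℤ) : ∃ N : ℤ, 0 ≤ N ∧ ∀ a, μ a ≤ N := by
  classical
  have : Fintype α := Fintype.ofFinite α
  refine ⟨∑ a, |μ a|, Finset.sum_nonneg fun a _ => abs_nonneg _, fun a => ?_⟩
  exact (le_abs_self _).trans (Finset.single_le_sum (f := fun a => |μ a|) (fun a _ => abs_nonneg _) (Finset.mem_univ a))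

theorem exists_H [Fintype ι] [Fintype σ] {S : Dat K ι σ n m q} (hS : S.Base d) : ∃ H : Finset K, (∀ h ∈ H, h ≠ 0 ∧ S.AL h) ∧ ∀ (v : K → ℤ), IV K v → ∀ c l z, CH S d v c l z → ∀ I' : Finset (Fin q), I'.card = m + 1 →
    ∃ i ∈ I', ∃ h ∈ H, v (S.F i) - v (S.Y i (z i)) - d * v (S.V l) ≤ v h := by
  classical
  have hgp : ∀ I' : {I : Finset (Fin q) // I.card = m + 1}, S.GP d I'.1 := fun I' => hS.gp I'.1 I'.2
  choose N hN using hgp
  have hC : ∀ (I' : {I : Finset (Fin q) // I.card = m + 1}) (l : Fin (m + 1)), ∃ C : Fin q → MvPolynomial (Fin (m + 1)) K,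
      (∀ i, (C i).IsHomogeneous (N I')) ∧ (∀ i γ, S.AL ((C i).coeff γ)) ∧
        S.V l ^ (N I' + d) = ∑ i ∈ I'.1, eval S.V (C i) * S.F i := by
    intro I' l
    obtain ⟨C, h1, h2, h3⟩ := hN I' (Finsupp.single l (N I' + d)) (by
      simp only [Finsupp.single_apply, Finset.sum_ite_eq, Finset.mem_univ, if_true])
    refine ⟨C, h1, h2, ?_⟩
    rw [← h3, gh_mon_single]
  choose C hC1 hC2 hC3 using hC
  refine ⟨(Finset.univ : Finset ({I : Finset (Fin q) // I.card = m + 1} × Fin (m + 1) × Fin q × σ)).biUnion (fun a =>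
    ((C a.1 a.2.1 a.2.2.1).support.image (fun γ => ((C a.1 a.2.1 a.2.2.1).coeff γ * S.Y a.2.2.1 a.2.2.2)⁻¹)).filter
      (fun x => x ≠ 0)), ?_, ?_⟩
  · intro h hh
    simp only [Finset.mem_biUnion, Finset.mem_filter, Finset.mem_image, Finset.mem_univ, true_and] at hh
    obtain ⟨a, ⟨γ, hγ, rfl⟩, h0⟩ := hh
    refine ⟨h0, ?_⟩
    unfold Dat.AL
    exact IsAlgebraic.inv (IsAlgebraic.mul (hC2 _ _ _ _) (hS.Y_alg _ _))
  · intro v hv c l z hc I' hI'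
    have h1 := hC3 ⟨I', hI'⟩ l
    have h2 : ∑ i ∈ I', eval S.V (C ⟨I', hI'⟩ l i) * S.F i ≠ 0 := by
      intro h0
      rw [h0] at h1
      exact pow_ne_zero _ hc.Vne h1
    obtain ⟨i, hi, h3, h4⟩ := gh_sum hv I' _ h2
    have h4' : v (eval S.V (C ⟨I', hI'⟩ l i) * S.F i) ≤ ((N ⟨I', hI'⟩ + d : ℕ) : ℤ) * v (S.V l) := by
      rw [← gh_pow hv hc.Vne, h1]
      exact h4
    have h5 : eval S.V (C ⟨I', hI'⟩ l i) ≠ 0 := left_ne_zero_of_mul h3
    rw [hv.mul h5 (hS.F_ne i)] at h4'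
    have h5' := h5
    rw [eval_eq'] at h5'
    obtain ⟨γ, hγ, h7, h8⟩ := gh_sum hv _ _ h5'
    rw [← eval_eq'] at h8
    have h9 := left_ne_zero_of_mul h7
    have h10 := right_ne_zero_of_mul h7
    rw [hv.mul h9 h10] at h8
    have h11 := gh_mon hv hc.Vle h10
    have h12 : ∑ l', γ l' = N ⟨I', hI'⟩ := by
      have h13 := hC1 ⟨I', hI'⟩ l i (mem_support_iff.1 hγ)
      have h14 : Finsupp.weight (1 : Fin (m + 1) → ℕ) γ = ∑ l, γ l := by
        rw [Finsupp.weight_apply, Finsupp.sum_fintype _ _ (fun i => by simp)]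
        simp
      rw [h14] at h13
      exact h13
    have h15 : (∑ l', (γ l' : ℤ)) = (N ⟨I', hI'⟩ : ℤ) := by
      rw [← h12]
      push_cast
      rfl
    rw [h15] at h11
    refine ⟨i, hi, ((C ⟨I', hI'⟩ l i).coeff γ * S.Y i (z i))⁻¹, ?_, ?_⟩
    · simp only [Finset.mem_biUnion, Finset.mem_filter, Finset.mem_image, Finset.mem_univ, true_and]
      exact ⟨⟨⟨I', hI'⟩, l, i, z i⟩, ⟨γ, hγ, rfl⟩, inv_ne_zero (mul_ne_zero h9 (hc.Yne i))⟩
    · rw [gh_inv hv (mul_ne_zero h9 (hc.Yne i)), hv.mul h9 (hc.Yne i)]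
      push_cast at h4'
      rw [add_mul] at h4'
      linarith

private theorem gh_X (S : Dat K ι σ n m q) (b c : ι) : S.AL (S.X b / S.X c) := by
  have h1 : ∀ b : ι, IsAlgebraic (IntermediateField.adjoin ℂ (Set.range S.X)) (S.X b) := fun b =>
    isAlgebraic_algebraMap (⟨S.X b, IntermediateField.subset_adjoin _ _ ⟨b, rfl⟩⟩ : IntermediateField.adjoin ℂ (Set.range S.X))
  unfold Dat.AL
  rw [div_eq_mul_inv]
  exact (h1 b).mul (h1 c).inv

private theorem gh_x_ne {x : Fin p → K} {r : Fin f → K} (h : Ps x r ≠ 0) (t : Fin p) : x t ≠ 0 := by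
  intro h0
  have h1 := (algInd_of_ps h).ne_zero (Fin.castAdd f t)
  apply h1
  rw [Fin.append_left, h0]

private theorem gh_x_nonneg [Fintype ι] {S : Dat K ι σ n m q} {v : K → ℤ} (h : IV K v) {c : ι} {l : Fin (m + 1)}
    {z : Fin q → σ} (hc : CH S d v c l z) {b : ι} (hb : S.X b / S.X c ≠ 0) : 0 ≤ v (S.X b / S.X c) := by
  have hb0 : S.X b ≠ 0 := fun h0 => hb (by rw [h0, zero_div])
  rw [gh_div h hb0 hc.Xne]
  have h2 := hc.Xle b hb0
  omega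

/-- the functions of the base are bounded by every form -/
theorem base_bound [Algebra.EssFiniteType ℂ K] [Fintype ι] [Fintype σ] {z₀ : Fin (p + f) → K} (hz : IsTranscendenceBasis ℂ z₀) {S : Dat K ι σ n m q} (hS : S.Base d) {J : Fin p → Fin n} (hJ : S.Bas J) {H : Finset K} (hH : ∀ h ∈ H, h ≠ 0 ∧ S.AL h) :
    ∃ N : ℤ, 0 ≤ N ∧ ∀ (v : K → ℤ) (o : RatForm K (p + f) → ℤ), FV (p + f) v o → ∀ c l z, CH S d v c l z → ∀ (i₀ : Fin q) (I : Fin f → Fin q), S.W J i₀ I ≠ 0 → ∀ h ∈ H, v h ≤ N * (o (S.W J i₀ I) + 1) := by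
  classical
  have key : ∀ a : ι × (Fin q → σ) × Fin q × (Fin f → Fin q) × (Fin p → ι) × H, ∃ μ : ℤ,
      Ps (fun t => S.X (a.2.2.2.2.1 t) / S.X a.1) (S.rh a.2.1 a.2.2.1 a.2.2.2.1) ≠ 0 →
      ∀ (v : K → ℤ) (o : RatForm K (p + f) → ℤ), FV (p + f) v o → (∀ t, 0 ≤ v (S.X (a.2.2.2.2.1 t) / S.X a.1)) →
        v a.2.2.2.2.2 ≤ μ * (o (Ps (fun t => S.X (a.2.2.2.2.1 t) / S.X a.1) (S.rh a.2.1 a.2.2.1 a.2.2.2.1)) + 1) := by
    rintro ⟨c, z, i₀, I, B, h⟩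
    by_cases hne : Ps (fun t => S.X (B t) / S.X c) (S.rh z i₀ I) ≠ 0
    · obtain ⟨μ, -, hμ⟩ := exists_mu_base hne (hH h.1 h.2).1
        (alg_x hz hS hJ (fun t => gh_X S (B t) c) hne (hH h.1 h.2).2)
      exact ⟨μ, fun _ => hμ⟩
    · exact ⟨0, fun h0 => absurd h0 hne⟩
  choose μ hμ using key
  obtain ⟨N, hN0, hN⟩ := gh_sup μ
  refine ⟨N, hN0, ?_⟩
  intro v o hv c l z hc i₀ I hW h hh
  obtain ⟨B, hB1, hB2⟩ := exists_B hS hJ hv hc hW
  have hx : ∀ t, 0 ≤ v (S.X (B t) / S.X c) := fun t => gh_x_nonneg hv.toIV hc (gh_x_ne hB1 t)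
  have h1 := hμ ⟨c, z, i₀, I, B, ⟨h, hh⟩⟩ hB1 v o hv hx
  have h2 := A_nonneg hB1 hv hx
  refine h1.trans ?_
  refine (mul_le_mul_of_nonneg_right (hN _) h2).trans ?_
  exact mul_le_mul_of_nonneg_left (by omega) hN0

theorem form_bound [Algebra.EssFiniteType ℂ K] [Fintype ι] [Fintype σ] {z₀ : Fin (p + f) → K} (hz : IsTranscendenceBasis ℂ z₀) {S : Dat K ι σ n m q} (hS : S.Base d) {J : Fin p → Fin n} (hJ : S.Bas J) {H : Finset K} (hH : ∀ h ∈ H, h ≠ 0 ∧ S.AL h) :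
    ∃ N : ℤ, 0 ≤ N ∧ ∀ (v : K → ℤ) (o : RatForm K (p + f) → ℤ), FV (p + f) v o → ∀ c l z, CH S d v c l z → ∀ (i₀ : Fin q) (I : Fin f → Fin q), S.W J i₀ I ≠ 0 →
      (∃ h ∈ H, v (S.F i₀) - v (S.Y i₀ (z i₀)) - d * v (S.V l) ≤ v h) → (∀ t, ∃ h ∈ H, v (S.F (I t)) - v (S.Y (I t) (z (I t))) - d * v (S.V l) ≤ v h) →
        ∀ j, v (S.F j) - v (S.Y j (z j)) - d * v (S.V l) ≤ N * (o (S.W J i₀ I) + 1) := by
  classical
  obtain ⟨N₁, hN₁0, hN₁⟩ := base_bound hz hS hJ hH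
  have key : ∀ a : ι × Fin (m + 1) × (Fin q → σ) × Fin q × (Fin f → Fin q) × (Fin p → ι) × Fin q, ∃ μ : ℤ,
      Ps (fun t => S.X (a.2.2.2.2.2.1 t) / S.X a.1) (S.rh a.2.2.1 a.2.2.2.1 a.2.2.2.2.1) ≠ 0 →
      S.F a.2.2.2.2.2.2 / (S.Y a.2.2.2.2.2.2 (a.2.2.1 a.2.2.2.2.2.2) * S.V a.2.1 ^ d) ≠ 0 →
      ∀ (v : K → ℤ) (o : RatForm K (p + f) → ℤ) (G : ℤ), FV (p + f) v o →
        (∀ t, 0 ≤ v (S.X (a.2.2.2.2.2.1 t) / S.X a.1)) → 0 ≤ G →
        (∀ t, |v (S.rh a.2.2.1 a.2.2.2.1 a.2.2.2.2.1 t)| ≤ G) →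
        v (S.F a.2.2.2.2.2.2 / (S.Y a.2.2.2.2.2.2 (a.2.2.1 a.2.2.2.2.2.2) * S.V a.2.1 ^ d)) ≤
          μ * (o (Ps (fun t => S.X (a.2.2.2.2.2.1 t) / S.X a.1) (S.rh a.2.2.1 a.2.2.2.1 a.2.2.2.2.1)) + 1 + G) := by
    rintro ⟨c, l, z, i₀, I, B, j⟩
    by_cases hne : Ps (fun t => S.X (B t) / S.X c) (S.rh z i₀ I) ≠ 0
    · by_cases hφ : S.F j / (S.Y j (z j) * S.V l ^ d) ≠ 0
      · obtain ⟨μ, -, hμ⟩ := exists_mu hz hne hφ
        exact ⟨μ, fun _ _ => hμ⟩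
      · exact ⟨0, fun _ h0 => absurd h0 hφ⟩
    · exact ⟨0, fun h0 => absurd h0 hne⟩
  choose μ hμ using key
  obtain ⟨N, hN0, hN⟩ := gh_sup μ
  refine ⟨N * (1 + N₁), by positivity, ?_⟩
  intro v o hv c l z hc i₀ I hW h₀ h₁ j
  have hbb := hN₁ v o hv c l z hc i₀ I hW
  obtain ⟨B, hB1, hB2⟩ := exists_B hS hJ hv hc hW
  have hx : ∀ t, 0 ≤ v (S.X (B t) / S.X c) := fun t => gh_x_nonneg hv.toIV hc (gh_x_ne hB1 t)
  have hA := A_nonneg hB1 hv hx
  have hW0 : 0 ≤ o (S.W J i₀ I) + 1 := by omega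
  have hG0 : 0 ≤ N₁ * (o (S.W J i₀ I) + 1) := mul_nonneg hN₁0 hW0
  have hφ : S.F j / (S.Y j (z j) * S.V l ^ d) ≠ 0 :=
    div_ne_zero (hS.F_ne j) (mul_ne_zero (hc.Yne j) (pow_ne_zero _ hc.Vne))
  have hr : ∀ t, |v (S.rh z i₀ I t)| ≤ N₁ * (o (S.W J i₀ I) + 1) := by
    intro t
    have hv1 : v (S.rh z i₀ I t) = (v (S.F (I t)) - v (S.Y (I t) (z (I t)))) - (v (S.F i₀) - v (S.Y i₀ (z i₀))) := by
      unfold Dat.rh
      rw [hv.mul (div_ne_zero (hS.F_ne _) (hS.F_ne _)) (div_ne_zero (hc.Yne _) (hc.Yne _)),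
        gh_div hv.toIV (hS.F_ne _) (hS.F_ne _), gh_div hv.toIV (hc.Yne _) (hc.Yne _)]
      ring
    obtain ⟨x₀, hx₀, hx₀'⟩ := h₀
    obtain ⟨x₁, hx₁, hx₁'⟩ := h₁ t
    have h2 := hbb x₀ hx₀
    have h3 := hbb x₁ hx₁
    have h4 := hc.Fle i₀
    have h5 := hc.Fle (I t)
    rw [hv1, abs_le]
    constructor <;> linarith
  have h6 := hμ ⟨c, l, z, i₀, I, B, j⟩ hB1 hφ v o _ hv hx hG0 hr
  have h7 : v (S.F j / (S.Y j (z j) * S.V l ^ d)) = v (S.F j) - v (S.Y j (z j)) - d * v (S.V l) := by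
    rw [gh_div hv.toIV (hS.F_ne j) (mul_ne_zero (hc.Yne j) (pow_ne_zero _ hc.Vne)),
      hv.mul (hc.Yne j) (pow_ne_zero _ hc.Vne), gh_pow hv.toIV hc.Vne]
    ring
  have h6' : v (S.F j) - v (S.Y j (z j)) - d * v (S.V l) ≤ μ ⟨c, l, z, i₀, I, B, j⟩ *
      (o (Ps (fun t => S.X (B t) / S.X c) (S.rh z i₀ I)) + 1 + N₁ * (o (S.W J i₀ I) + 1)) := by
    rw [← h7]
    exact h6
  refine h6'.trans ?_
  refine (mul_le_mul_of_nonneg_right (hN _) (add_nonneg hA hG0)).trans ?_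
  rw [mul_assoc]
  refine mul_le_mul_of_nonneg_left ?_ hN0
  rw [add_mul, one_mul]
  omega

end Pool.Agent.LH
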