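import Pool.Agent.LH.Defs

/-!
# LH In: the map to `ℙ^m` given by `m + 1` forms in general position is finite

`I` in general position (`GP`), `i₀ ∈ I`.  Let `𝕃` be the field of the elements of `K` which are algebraic over `ℂ(X)`, `B₁ = 𝕃[F i / F i₀ : i ∈ I] ⊆ K`, `M` the `B₁`-submodule of `K` generated by the finitely many monomials `mon γ` of degree `N` (`N` of `GP`); `M ≠ 0` because some `V l ≠ 0`.
By `GP` `V_l^d mon γ` (a monomial of degree `N + d`) is `∑ C_i(V) F_i`, `C_i(V)` an `𝕃`-combination of the `mon γ'`; so `(V_l^d / F i₀) M ⊆ M`, and `V_l^d / F i₀` is integral over `B₁` (`isIntegral_of_smul_mem_submodule`).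
So `(V_l / V_l')^d` is algebraic over the field generated by `𝕃` and the `F i / F i₀`, and `V_l / V_l'` also (`1 ≤ d`), and everything algebraic over `𝕃(…)` is algebraic over `ℂ(X)(F i / F i₀)`.
-/

set_option autoImplicit false

open MvPolynomial
open Pool.Agent.LG (dd wd IV FV)

noncomputable section

namespace Pool.Agent.LH

variable {K : Type} [Field K] [Algebra ℂ K] {ι σ : Type} {k n m q p f d : ℕ}

private theorem in_mono {E₁ E₂ : IntermediateField ℂ K} (h : E₁ ≤ E₂) {x : K} (hx : IsAlgebraic E₁ x) : IsAlgebraic E₂ x := by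
  obtain ⟨P, hP, hx⟩ := hx
  refine ⟨P.map (IntermediateField.inclusion h).toRingHom, ?_, ?_⟩
  · exact (Polynomial.map_ne_zero_iff (IntermediateField.inclusion h).toRingHom.injective).2 hP
  · rw [Polynomial.aeval_def, Polynomial.eval₂_map]
    rw [Polynomial.aeval_def] at hx
    exact hx

private theorem in_fin (m N : ℕ) : {γ : Fin (m + 1) →₀ ℕ | ∑ l, γ l = N}.Finite := by
  refine (Finsupp.finite_of_degree_le (σ := Fin (m + 1)) N).subset ?_
  intro γ hγ
  have h1 : ∑ l, γ l = N := hγ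
  show Finsupp.degree γ ≤ N
  rw [Finsupp.degree_eq_sum, h1]

private theorem in_mon_add (S : Dat K ι σ n m q) (β γ : Fin (m + 1) →₀ ℕ) : S.mon (β + γ) = S.mon β * S.mon γ := by
  unfold Dat.mon
  rw [← Finset.prod_mul_distrib]
  refine Finset.prod_congr rfl fun l _ => ?_
  rw [Finsupp.add_apply, pow_add]

private theorem in_mon_single (S : Dat K ι σ n m q) (l : Fin (m + 1)) (N : ℕ) : S.mon (Finsupp.single l N) = S.V l ^ N := by
  unfold Dat.mon
  rw [Finset.prod_eq_single l]
  · rw [Finsupp.single_eq_same]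
  · intro b _ hb
    rw [Finsupp.single_apply, if_neg (fun h => hb h.symm), pow_zero]
  · intro h
    exact absurd (Finset.mem_univ l) h

/-- `V_l ^ d / F i₀` is algebraic over the field generated by the base and the `F i / F i₀` -/
private theorem in_pow (S : Dat K ι σ n m q) (hV : ∃ l, S.V l ≠ 0) (_hF : ∀ j, S.F j ≠ 0) {I : Finset (Fin q)} (hI : S.GP d I) {i₀ : Fin q} (l : Fin (m + 1)) :
    IsAlgebraic (IntermediateField.adjoin ℂ (Set.range S.X ∪ {y | ∃ i ∈ I, y = S.F i / S.F i₀})) (S.V l ^ d / S.F i₀) := by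
  classical
  set E := IntermediateField.adjoin ℂ (Set.range S.X ∪ {y | ∃ i ∈ I, y = S.F i / S.F i₀}) with hE
  set L : IntermediateField E K := algebraicClosure E K with hL
  have hAL : ∀ x, S.AL x → x ∈ L := fun x hx =>
    mem_algebraicClosure_iff.2 (in_mono (IntermediateField.adjoin.mono ℂ _ _ Set.subset_union_left) hx)
  have hR : ∀ i ∈ I, S.F i / S.F i₀ ∈ L := by
    intro i hi
    have h1 : S.F i / S.F i₀ ∈ E := IntermediateField.subset_adjoin ℂ _ (Or.inr ⟨i, hi, rfl⟩)
    exact mem_algebraicClosure_iff.2 (isAlgebraic_algebraMap (⟨_, h1⟩ : E))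
  obtain ⟨N, hN⟩ := hI
  set M : Submodule L K := Submodule.span L ((fun γ => S.mon γ) '' {γ | ∑ l, γ l = N}) with hM
  have hfg : M.FG := Submodule.fg_span ((in_fin m N).image _)
  have hne : M ≠ ⊥ := by
    obtain ⟨l, hl⟩ := hV
    have h1 : S.V l ^ N ∈ M := by
      apply Submodule.subset_span
      refine ⟨Finsupp.single l N, ?_, in_mon_single S l N⟩
      simp [Finsupp.single_apply]
    intro h2
    rw [h2, Submodule.mem_bot] at h1
    exact pow_ne_zero N hl h1
  have heval : ∀ C : MvPolynomial (Fin (m + 1)) K, C.IsHomogeneous N → (∀ γ, S.AL (C.coeff γ)) → eval S.V C ∈ M := by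
    intro C hC hc
    rw [eval_eq']
    refine Submodule.sum_mem _ fun γ hγ => ?_
    have h1 : S.mon γ ∈ M := by
      apply Submodule.subset_span
      refine ⟨γ, ?_, rfl⟩
      have h2 := hC (mem_support_iff.1 hγ)
      have h3 : Finsupp.weight (1 : Fin (m + 1) → ℕ) γ = ∑ l, γ l := by
        rw [Finsupp.weight_apply, Finsupp.sum_fintype _ _ (fun i => by simp)]
        simp
      rw [h3] at h2
      exact h2
    exact M.smul_mem (⟨_, hAL _ (hc γ)⟩ : L) h1
  have hstab : ∀ y ∈ M, (S.V l ^ d / S.F i₀) • y ∈ M := by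
    intro y hy
    induction hy using Submodule.span_induction with
    | mem y hy =>
      obtain ⟨γ, hγ, rfl⟩ := hy
      have hγ' : ∑ l, γ l = N := hγ
      obtain ⟨C, hC1, hC2, hC3⟩ := hN (γ + Finsupp.single l d) (by
        simp only [Finsupp.add_apply, Finset.sum_add_distrib, hγ']
        congr 1
        simp [Finsupp.single_apply])
      rw [in_mon_add, in_mon_single] at hC3
      have h3 : (S.V l ^ d / S.F i₀) • S.mon γ = ∑ i ∈ I, (S.F i / S.F i₀) * eval S.V (C i) := by
        rw [smul_eq_mul, div_mul_eq_mul_div, mul_comm, hC3, Finset.sum_div]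
        refine Finset.sum_congr rfl fun i _ => ?_
        ring
      show (S.V l ^ d / S.F i₀) • S.mon γ ∈ M
      rw [h3]
      refine Submodule.sum_mem _ fun i hi => ?_
      exact M.smul_mem (⟨_, hR i hi⟩ : L) (heval _ (hC1 i) (hC2 i))
    | zero => rw [smul_zero]; exact M.zero_mem
    | add y z _ _ hy hz => rw [smul_add]; exact M.add_mem hy hz
    | smul c y _ hy =>
      rw [smul_comm]
      exact M.smul_mem c hy
  have hint : IsIntegral L (S.V l ^ d / S.F i₀) := isIntegral_of_smul_mem_submodule M hne hfg _ hstab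
  exact (isIntegral_trans _ hint).isAlgebraic

theorem alg_of_gp (S : Dat K ι σ n m q) (hd : 1 ≤ d) (hV : ∃ l, S.V l ≠ 0) (hF : ∀ j, S.F j ≠ 0) {I : Finset (Fin q)} (hI : S.GP d I) {i₀ : Fin q} (hi : i₀ ∈ I) (l l' : Fin (m + 1)) :
    IsAlgebraic (IntermediateField.adjoin ℂ (Set.range S.X ∪ {y | ∃ i ∈ I, y = S.F i / S.F i₀})) (S.V l / S.V l') := by
  have h1 := in_pow S hV hF hI (i₀ := i₀) l
  have h2 := in_pow S hV hF hI (i₀ := i₀) l'
  apply IsAlgebraic.of_pow (n := d) (by omega)
  have h3 : (S.V l / S.V l') ^ d = (S.V l ^ d / S.F i₀) * (S.V l' ^ d / S.F i₀)⁻¹ := by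
    have h0 := hF i₀
    rw [div_pow, inv_div]
    field_simp
  rw [h3]
  exact h1.mul h2.inv

theorem alg_all (S : Dat K ι σ n m q) (hd : 1 ≤ d) (hS : S.Base d) {I : Finset (Fin q)} (hI : I.card = m + 1) {i₀ : Fin q} (hi : i₀ ∈ I) :
    Algebra.IsAlgebraic (IntermediateField.adjoin ℂ (Set.range S.X ∪ {y | ∃ i ∈ I, y = S.F i / S.F i₀})) K := by
  classical
  set E := IntermediateField.adjoin ℂ (Set.range S.X ∪ {y | ∃ i ∈ I, y = S.F i / S.F i₀}) with hE
  set L : IntermediateField E K := algebraicClosure E K with hL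
  have h1 : IntermediateField.adjoin ℂ (Set.range S.X ∪ {y | ∃ l l', y = S.V l / S.V l'}) ≤ L.restrictScalars ℂ := by
    rw [IntermediateField.adjoin_le_iff]
    rintro y (⟨b, rfl⟩ | ⟨l, l', rfl⟩)
    · have h2 : S.X b ∈ E := IntermediateField.subset_adjoin ℂ _ (Or.inl ⟨b, rfl⟩)
      exact mem_algebraicClosure_iff.2 (isAlgebraic_algebraMap (⟨_, h2⟩ : E))
    · exact mem_algebraicClosure_iff.2 (alg_of_gp S hd hS.V_ne hS.F_ne (hS.gp I hI) hi l l')
  refine ⟨fun x => ?_⟩
  have h2 : IsAlgebraic (L.restrictScalars ℂ) x := in_mono h1 (hS.alg.isAlgebraic x)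
  have h3 : IsAlgebraic L x := h2
  exact (isIntegral_trans x h3.isIntegral).isAlgebraic

end Pool.Agent.LH
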