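import Pool.Agent.LH.Ch
import Pool.Agent.LH.Es
import Pool.Agent.LG.Wt

/-!
# LH Tm: the forms `W J i₀ I` at one valuation

* `dd_AL`: for `AL` elements `dd y` is in the span of the `δ (J t)` (`dd_mem_of_alg`, `Base.span`, `Bas.span`).
* `exists_B`: expand the first block `δ (J t) = ∑ M b dd (X b / X c)` (`LG.exists_term`; for the second block a trivial sum, `ι` is not empty): a nonzero term `Ps x r`, `x t = X (B t) / X c`, `r t = F (I t) / F i₀`, with `o (Ps x r) ≤ o (W J i₀ I)`.  The `dd (x t)` are linearly independent and in the span of the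
  `p` forms `δ (J t)` (`dd_AL`), so they span it; `dlog (y r) = dlog y + dlog r` and `dlog y` is in this span if `y ≠ 0` is `AL`: `Ps x r` does not change if the `r t` are multiplied by nonzero `AL` elements.
* `alg_x`: with these `x` every `AL` element is algebraic over `ℂ(x)` (`dd y` in the span of the `dd (x t)`, characteristic `0`: otherwise `x, y` would be algebraically independent, so `dd (x t)`, `dd y` linearly independent: a transcendence basis which contains them and `H23.exists_basis_kaehler`).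
* `W_log`: `exists_B` and `A_nonneg`.  `W_reg`: all `a_j = 0`: `x t`, `r^ t`, integral, `v (r^ t) = 0`: `Ps x r^ = (∏ r^)⁻¹ • wd (dx, dr^)` and `FV.reg`.
-/

set_option autoImplicit false

open MvPolynomial
open Pool.Agent.H23 (RatForm PrimeDivisorOver)
open Pool.Agent.LG (dd wd IV FV)

noncomputable section

namespace Pool.Agent.LH

variable {K : Type} [Field K] [Algebra ℂ K] {ι σ : Type} {k n m q p f d w : ℕ}

private theorem tm_li {N : ℕ} {η : Fin N → Ω[K⁄ℂ]} (h : wd η ≠ 0) : LinearIndependent K η := by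
  by_contra hcon
  exact h (AlternatingMap.map_linearDependent _ _ hcon)

private theorem tm_update {N : ℕ} {u : Fin N → Ω[K⁄ℂ]} {i : Fin N} {s : Ω[K⁄ℂ]}
    (hs : s ∈ Submodule.span K (u '' {i}ᶜ)) : wd (Function.update u i (u i + s)) = wd u := by
  have h0 : (exteriorPower.ιMulti K N : (Ω[K⁄ℂ]) [⋀^Fin N]→ₗ[K] _) (Function.update u i s) = 0 := by
    apply AlternatingMap.map_linearDependent
    intro hli
    have h1 := hli.notMem_span_image (s := {i}ᶜ) (x := i) (fun h => h rfl)
    rw [Function.update_self] at h1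
    apply h1
    have h2 : Function.update u i s '' {i}ᶜ = u '' {i}ᶜ := by
      apply Set.image_congr
      intro j hj
      exact Function.update_of_ne hj _ _
    rw [h2]
    exact hs
  unfold wd
  rw [AlternatingMap.map_update_add, Function.update_eq_self, h0, add_zero]

private theorem tm_append {η : Fin p → Ω[K⁄ℂ]} {ζ s : Fin f → Ω[K⁄ℂ]} (hs : ∀ t, s t ∈ Submodule.span K (Set.range η)) :
    wd (Fin.append η (fun t => ζ t + s t)) = wd (Fin.append η ζ) := by
  classical
  have key : ∀ T : Finset (Fin f), wd (Fin.append η (fun t => if t ∈ T then ζ t + s t else ζ t)) = wd (Fin.append η ζ) := by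
    intro T
    induction T using Finset.induction_on with
    | empty => simp
    | insert a T ha ih =>
      rw [← ih]
      have h1 : Fin.append η (fun t => if t ∈ insert a T then ζ t + s t else ζ t) =
          Function.update (Fin.append η (fun t => if t ∈ T then ζ t + s t else ζ t)) (Fin.natAdd p a)
            (Fin.append η (fun t => if t ∈ T then ζ t + s t else ζ t) (Fin.natAdd p a) + s a) := by
        funext l
        refine Fin.addCases (fun l => ?_) (fun l => ?_) l
        · rw [Function.update_of_ne, Fin.append_left, Fin.append_left]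
          intro h
          have h2 := congrArg Fin.val h
          rw [Fin.val_castAdd, Fin.val_natAdd] at h2
          omega
        · by_cases hl : l = a
          · subst hl
            rw [Function.update_self, Fin.append_right, Fin.append_right, if_pos (Finset.mem_insert_self l T), if_neg ha]
          · rw [Function.update_of_ne, Fin.append_right, Fin.append_right]
            · simp only [Finset.mem_insert, hl, false_or]
            · intro h
              exact hl (Fin.natAdd_injective _ _ h)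
      rw [h1]
      apply tm_update
      refine Submodule.span_mono ?_ (hs a)
      rintro _ ⟨t, rfl⟩
      refine ⟨Fin.castAdd f t, ?_, Fin.append_left _ _ _⟩
      intro h
      have h2 := congrArg Fin.val (Set.mem_singleton_iff.1 h)
      rw [Fin.val_castAdd, Fin.val_natAdd] at h2
      omega
  have h1 := key Finset.univ
  simpa using h1

private theorem tm_span {V : Type} [AddCommGroup V] [Module K V] {a b : Fin p → V} (ha : LinearIndependent K a)
    (hb : ∀ t, b t ∈ Submodule.span K (Set.range a)) (hbi : LinearIndependent K b) :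
    Submodule.span K (Set.range a) ≤ Submodule.span K (Set.range b) := by
  have h1 : Submodule.span K (Set.range b) ≤ Submodule.span K (Set.range a) :=
    Submodule.span_le.2 (by rintro _ ⟨t, rfl⟩; exact hb t)
  have : FiniteDimensional K (Submodule.span K (Set.range a)) := FiniteDimensional.span_of_finite K (Set.finite_range a)
  have h2 : Submodule.span K (Set.range b) = Submodule.span K (Set.range a) := by
    apply Submodule.eq_of_le_of_finrank_eq h1
    rw [finrank_span_eq_card ha, finrank_span_eq_card hbi]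
  exact h2.symm.le

private theorem tm_dlog_mul {a b : K} (ha : a ≠ 0) (hb : b ≠ 0) : dlog (a * b) = dlog a + dlog b := by
  unfold dlog dd
  rw [Derivation.leibniz, smul_add, smul_smul, smul_smul, add_comm]
  congr 2
  · field_simp
  · field_simp

private theorem tm_X {S : Dat K ι σ n m q} (b : ι) : S.AL (S.X b) :=
  isAlgebraic_algebraMap (⟨S.X b, IntermediateField.subset_adjoin _ _ ⟨b, rfl⟩⟩ : IntermediateField.adjoin ℂ (Set.range S.X))

private theorem tm_div {S : Dat K ι σ n m q} {a b : K} (ha : S.AL a) (hb : S.AL b) : S.AL (a / b) := by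
  unfold Dat.AL at *
  rw [div_eq_mul_inv]
  exact ha.mul hb.inv

/-- the normalised functions `r^` -/
def Dat.rh (S : Dat K ι σ n m q) (z : Fin q → σ) (i₀ : Fin q) (I : Fin f → Fin q) (t : Fin f) : K := S.F (I t) / S.F i₀ * (S.Y i₀ (z i₀) / S.Y (I t) (z (I t)))

theorem dd_AL {S : Dat K ι σ n m q} (hS : S.Base d) {J : Fin p → Fin n} (hJ : S.Bas J) {y : K} (hy : S.AL y) : dd y ∈ Submodule.span K (Set.range fun t => S.δ (J t)) := by
  have h1 := dd_mem_of_alg (Set.range S.X) hy
  have h2 : Submodule.span K ((fun t => dd t) '' Set.range S.X) ≤ Submodule.span K (Set.range fun t => S.δ (J t)) := by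
    rw [Submodule.span_le]
    rintro _ ⟨_, ⟨a, rfl⟩, rfl⟩
    have h3 : Submodule.span K (Set.range S.δ) ≤ Submodule.span K (Set.range fun t => S.δ (J t)) := by
      rw [Submodule.span_le]
      rintro _ ⟨i, rfl⟩
      exact hJ.span i
    exact h3 (hS.span a)
  exact h2 h1

private theorem tm_li_left {x : Fin p → K} {r : Fin f → K} (h : Ps x r ≠ 0) : LinearIndependent K (fun t => dd (x t)) := by
  have h1 := (tm_li h).comp (Fin.castAdd f) (Fin.castAdd_injective p f)
  have h2 : (Fin.append (fun t => dd (x t)) (fun t => dlog (r t))) ∘ Fin.castAdd f = fun t => dd (x t) := by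
    funext t
    exact Fin.append_left _ _ _
  rwa [h2] at h1

private theorem tm_le {S : Dat K ι σ n m q} (hS : S.Base d) {J : Fin p → Fin n} (hJ : S.Bas J) {x : Fin p → K} (hx : ∀ t, S.AL (x t))
    (hli : LinearIndependent K (fun t => dd (x t))) {y : K} (hy : S.AL y) : dd y ∈ Submodule.span K (Set.range fun t => dd (x t)) :=
  tm_span hJ.ind (fun t => dd_AL hS hJ (hx t)) hli (dd_AL hS hJ hy)

theorem exists_B [Fintype ι] {S : Dat K ι σ n m q} (hS : S.Base d) {J : Fin p → Fin n} (hJ : S.Bas J) {v : K → ℤ} {o : RatForm K (p + f) → ℤ} (h : FV (p + f) v o) {c : ι} {l : Fin (m + 1)} {z : Fin q → σ} (hc : CH S d v c l z) {i₀ : Fin q} {I : Fin f → Fin q}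
    (hW : S.W J i₀ I ≠ 0) : ∃ B : Fin p → ι, Ps (fun t => S.X (B t) / S.X c) (S.rh z i₀ I) ≠ 0 ∧ o (Ps (fun t => S.X (B t) / S.X c) (S.rh z i₀ I)) ≤ o (S.W J i₀ I) := by
  classical
  obtain ⟨a₀, -⟩ := hS.one
  obtain ⟨M, hM, hδ⟩ := hc.mat
  have hη : ∀ i : Fin (p + f), Fin.append (fun t => S.δ (J t)) (fun t => dlog (S.F (I t) / S.F i₀)) i =
      ∑ b, Fin.append (fun t b => M (J t) b) (fun _ b => if b = a₀ then (1 : K) else 0) i b •
        Fin.append (fun _ b => dd (S.X b / S.X c)) (fun t (_ : ι) => dlog (S.F (I t) / S.F i₀)) i b := by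
    intro i
    refine Fin.addCases (fun t => ?_) (fun t => ?_) i
    · rw [Fin.append_left, Fin.append_left, Fin.append_left, hδ]
    · rw [Fin.append_right, Fin.append_right, Fin.append_right]
      simp
  obtain ⟨B', hB1, hB2⟩ := Pool.Agent.LG.exists_term h hη (by
    intro i b
    refine Fin.addCases (fun t => ?_) (fun t => ?_) i
    · rw [Fin.append_left]
      exact hM _ _
    · rw [Fin.append_right]
      intro hb
      by_cases hb0 : b = a₀
      · rw [if_pos hb0]
        have := h.const 1 one_ne_zero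
        rw [map_one] at this
        exact this.ge
      · rw [if_neg hb0] at hb
        exact absurd rfl hb) hW
  have hT : (fun i => Fin.append (fun _ b => dd (S.X b / S.X c)) (fun t (_ : ι) => dlog (S.F (I t) / S.F i₀)) i (B' i)) =
      Fin.append (fun t => dd (S.X (B' (Fin.castAdd f t)) / S.X c)) (fun t => dlog (S.F (I t) / S.F i₀)) := by
    funext i
    refine Fin.addCases (fun t => ?_) (fun t => ?_) i
    · rw [Fin.append_left, Fin.append_left]
    · rw [Fin.append_right, Fin.append_right]
  rw [hT] at hB1 hB2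
  have hx : ∀ t, S.AL (S.X (B' (Fin.castAdd f t)) / S.X c) := fun t => tm_div (tm_X _) (tm_X _)
  have hli : LinearIndependent K (fun t : Fin p => dd (S.X (B' (Fin.castAdd f t)) / S.X c)) :=
    tm_li_left (x := fun t => S.X (B' (Fin.castAdd f t)) / S.X c) (r := fun t => S.F (I t) / S.F i₀) hB1
  have hPs : Ps (fun t => S.X (B' (Fin.castAdd f t)) / S.X c) (S.rh z i₀ I) =
      wd (Fin.append (fun t => dd (S.X (B' (Fin.castAdd f t)) / S.X c)) (fun t => dlog (S.F (I t) / S.F i₀))) := by
    unfold Ps
    have h1 : (fun t => dlog (S.rh z i₀ I t)) = fun t => dlog (S.F (I t) / S.F i₀) + dlog (S.Y i₀ (z i₀) / S.Y (I t) (z (I t))) := by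
      funext t
      unfold Dat.rh
      exact tm_dlog_mul (div_ne_zero (hS.F_ne _) (hS.F_ne _)) (div_ne_zero (hc.Yne _) (hc.Yne _))
    rw [h1]
    apply tm_append
    intro t
    unfold dlog
    exact Submodule.smul_mem _ _ (tm_le hS hJ hx hli (tm_div (hS.Y_alg _ _) (hS.Y_alg _ _)))
  refine ⟨fun t => B' (Fin.castAdd f t), ?_, ?_⟩
  · rw [hPs]
    exact hB1
  · rw [hPs]
    exact hB2

theorem alg_x [Algebra.EssFiniteType ℂ K] {z₀ : Fin (p + f) → K} (hz : IsTranscendenceBasis ℂ z₀) {S : Dat K ι σ n m q} (hS : S.Base d) {J : Fin p → Fin n} (hJ : S.Bas J) {x : Fin p → K} (hx : ∀ t, S.AL (x t)) {r : Fin f → K} (hne : Ps x r ≠ 0) {y : K} (hy : S.AL y) :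
    IsAlgebraic (IntermediateField.adjoin ℂ (Set.range x)) y := by
  have hli := tm_li_left hne
  have hmem := tm_le hS hJ hx hli hy
  have hind : AlgebraicIndependent ℂ x := by
    have h1 := (algInd_of_ps hne).comp (Fin.castAdd f) (Fin.castAdd_injective p f)
    have h2 : Fin.append x r ∘ Fin.castAdd f = x := by
      funext t
      exact Fin.append_left _ _ _
    rwa [h2] at h1
  by_contra hcon
  have htr : Transcendental (Algebra.adjoin ℂ (Set.range x)) y := by
    intro h1
    apply hcon
    obtain ⟨P, hP, h0⟩ := h1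
    have hle : Algebra.adjoin ℂ (Set.range x) ≤ (IntermediateField.adjoin ℂ (Set.range x)).toSubalgebra :=
      IntermediateField.algebra_adjoin_le_adjoin ℂ (Set.range x)
    refine ⟨P.map (Subalgebra.inclusion hle).toRingHom, ?_, ?_⟩
    · rw [Ne, Polynomial.map_eq_zero_iff]
      · exact hP
      · exact Subalgebra.inclusion_injective hle
    · rw [Polynomial.aeval_def, Polynomial.eval₂_map]
      rw [Polynomial.aeval_def] at h0
      exact h0
  have hopt := (hind.option_iff_transcendental y).2 htr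
  obtain ⟨T, hT1, hT2⟩ := exists_isTranscendenceBasis_superset (R := ℂ) (s := Set.range fun o' : Option (Fin p) => o'.elim y x) hopt.coe_range
  obtain ⟨b, hb⟩ := Pool.Agent.H23.exists_basis_kaehler hT2
  have h3 : LinearIndependent K (fun o' : Option (Fin p) => dd (o'.elim y x)) := by
    have h4 := b.linearIndependent.comp (fun o' : Option (Fin p) => (⟨o'.elim y x, hT1 ⟨o', rfl⟩⟩ : T)) (by
      intro o1 o2 h5
      exact hopt.injective (congrArg Subtype.val h5))
    have h6 : b ∘ (fun o' : Option (Fin p) => (⟨o'.elim y x, hT1 ⟨o', rfl⟩⟩ : T)) = fun o' => dd (o'.elim y x) := by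
      funext o'
      exact hb _
    rwa [h6] at h4
  have h7 := h3.notMem_span_image (s := {none}ᶜ) (x := none) (fun h => h rfl)
  apply h7
  refine Submodule.span_mono ?_ hmem
  rintro _ ⟨t, rfl⟩
  exact ⟨some t, by simp, rfl⟩

private theorem tm_x_nonneg [Fintype ι] {S : Dat K ι σ n m q} {v : K → ℤ} (h : IV K v) {c : ι} {l : Fin (m + 1)} {z : Fin q → σ} (hc : CH S d v c l z)
    {b : ι} (hb : S.X b / S.X c ≠ 0) : 0 ≤ v (S.X b / S.X c) := by
  have hb0 : S.X b ≠ 0 := fun h0 => hb (by rw [h0, zero_div])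
  have h1 := h.mul hb hc.Xne
  rw [div_mul_cancel₀ _ hc.Xne] at h1
  have h2 := hc.Xle b hb0
  omega

private theorem tm_x_ne {x : Fin p → K} {r : Fin f → K} (h : Ps x r ≠ 0) (t : Fin p) : x t ≠ 0 := by
  intro h0
  have h1 := (tm_li_left h).ne_zero t
  apply h1
  show dd (x t) = 0
  rw [h0]
  exact map_zero _

theorem W_log [Fintype ι] {S : Dat K ι σ n m q} (hS : S.Base d) {J : Fin p → Fin n} (hJ : S.Bas J) {v : K → ℤ} {o : RatForm K (p + f) → ℤ} (h : FV (p + f) v o) {c : ι} {l : Fin (m + 1)} {z : Fin q → σ} (hc : CH S d v c l z) {i₀ : Fin q} {I : Fin f → Fin q}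
    (hW : S.W J i₀ I ≠ 0) : 0 ≤ o (S.W J i₀ I) + 1 := by
  obtain ⟨B, hB1, hB2⟩ := exists_B hS hJ h hc hW
  have h1 := A_nonneg hB1 h (fun t => tm_x_nonneg h.toIV hc (tm_x_ne hB1 t))
  omega

private theorem tm_div_val {v : K → ℤ} (h : IV K v) {a b : K} (ha : a ≠ 0) (hb : b ≠ 0) : v (a / b) = v a - v b := by
  have h1 := h.mul (div_ne_zero ha hb) hb
  rw [div_mul_cancel₀ _ hb] at h1
  omega

private theorem tm_prod_zero {v : K → ℤ} (hv : IV K v) {α : Type} (s : Finset α) (a : α → K) (h0 : ∀ i ∈ s, a i ≠ 0)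
    (h : ∀ i ∈ s, v (a i) = 0) : v (∏ i ∈ s, a i) = 0 := by
  classical
  induction s using Finset.induction_on with
  | empty =>
    rw [Finset.prod_empty]
    simpa using hv.const 1 one_ne_zero
  | insert i s hi ih =>
    rw [Finset.prod_insert hi]
    have h1 : ∏ i ∈ s, a i ≠ 0 := Finset.prod_ne_zero_iff.2 fun j hj => h0 j (Finset.mem_insert_of_mem hj)
    rw [hv.mul (h0 i (Finset.mem_insert_self i s)) h1,
      ih (fun j hj => h0 j (Finset.mem_insert_of_mem hj)) (fun j hj => h j (Finset.mem_insert_of_mem hj)),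
      h i (Finset.mem_insert_self i s), add_zero]

private theorem tm_Ps (x : Fin p → K) (r : Fin f → K) :
    Ps x r = (∏ t, (r t)⁻¹) • wd (fun i => dd (Fin.append x r i)) := by
  unfold Ps
  have h1 : (Fin.append (fun t => dd (x t)) (fun t => dlog (r t))) =
      fun i => Fin.append (fun _ => (1 : K)) (fun t => (r t)⁻¹) i • dd (Fin.append x r i) := by
    funext i
    refine Fin.addCases (fun t => ?_) (fun t => ?_) i
    · rw [Fin.append_left, Fin.append_left, Fin.append_left, one_smul]
    · rw [Fin.append_right, Fin.append_right, Fin.append_right]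
      rfl
  rw [h1]
  unfold wd
  have h2 := (exteriorPower.ιMulti K (p + f) : (Ω[K⁄ℂ]) [⋀^Fin (p + f)]→ₗ[K] _).toMultilinearMap.map_smul_univ
    (Fin.append (fun _ => (1 : K)) (fun t => (r t)⁻¹)) (fun i => dd (Fin.append x r i))
  have h3 : ∏ i, Fin.append (fun _ : Fin p => (1 : K)) (fun t => (r t)⁻¹) i = ∏ t, (r t)⁻¹ := by
    rw [Fin.prod_univ_add]
    simp
  rw [h3] at h2
  exact h2

theorem W_reg [Fintype ι] {S : Dat K ι σ n m q} (hS : S.Base d) {J : Fin p → Fin n} (hJ : S.Bas J) {v : K → ℤ} {o : RatForm K (p + f) → ℤ} (h : FV (p + f) v o) {c : ι} {l : Fin (m + 1)} {z : Fin q → σ} (hc : CH S d v c l z)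
    (h0 : ∀ j, v (S.F j) = v (S.Y j (z j)) + d * v (S.V l)) {i₀ : Fin q} {I : Fin f → Fin q} (hW : S.W J i₀ I ≠ 0) : 0 ≤ o (S.W J i₀ I) := by
  obtain ⟨B, hB1, hB2⟩ := exists_B hS hJ h hc hW
  refine le_trans ?_ hB2
  have hr0 : ∀ t, S.rh z i₀ I t ≠ 0 := fun t =>
    mul_ne_zero (div_ne_zero (hS.F_ne _) (hS.F_ne _)) (div_ne_zero (hc.Yne _) (hc.Yne _))
  have hr : ∀ t, v (S.rh z i₀ I t) = 0 := by
    intro t
    unfold Dat.rh
    rw [h.mul (div_ne_zero (hS.F_ne _) (hS.F_ne _)) (div_ne_zero (hc.Yne _) (hc.Yne _)),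
      tm_div_val h.toIV (hS.F_ne _) (hS.F_ne _), tm_div_val h.toIV (hc.Yne _) (hc.Yne _), h0, h0]
    ring
  have hri : ∀ t, v (S.rh z i₀ I t)⁻¹ = 0 := by
    intro t
    have h1 := h.mul (hr0 t) (inv_ne_zero (hr0 t))
    rw [mul_inv_cancel₀ (hr0 t), hr t, zero_add] at h1
    rw [← h1]
    simpa using h.const 1 one_ne_zero
  have hP := hB1
  rw [tm_Ps] at hP ⊢
  have hp0 : ∏ t, (S.rh z i₀ I t)⁻¹ ≠ 0 := left_ne_zero_of_smul hP
  have hw0 : wd (fun i => dd (Fin.append (fun t => S.X (B t) / S.X c) (S.rh z i₀ I) i)) ≠ 0 := right_ne_zero_of_smul hP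
  rw [h.smul hp0 hw0, tm_prod_zero h.toIV Finset.univ _ (fun t _ => inv_ne_zero (hr0 t)) (fun t _ => hri t), zero_add]
  refine h.reg _ ?_ hw0
  intro i
  refine Fin.addCases (fun t => ?_) (fun t => ?_) i
  · rw [Fin.append_left]
    exact fun hb => tm_x_nonneg h.toIV hc hb
  · rw [Fin.append_right, hr t]
    exact fun _ => le_rfl

end Pool.Agent.LH
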